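import Mathlib

/-!
Two combinatorial lemmas about finite sets.
-/

namespace Pool.Agent.Helper87_CpFree

/-- A family of sets of size at most `l` that is guided by finite sets is finite. -/
theorem finite_family {K : Type*} [DecidableEq K] (l : ℕ) (𝒟 : Set (Finset K))
    (hcard : ∀ D ∈ 𝒟, D.card ≤ l)
    (h : ∀ B : Finset K, B.card < l → ∃ A : Finset K, ∀ D ∈ 𝒟, B ⊆ D → ∃ x ∈ D, x ∈ A ∧ x ∉ B) :
    𝒟.Finite := by
  have key : ∀ j ≤ l, ∀ B : Finset K, B.card = l - j → {D ∈ 𝒟 | B ⊆ D}.Finite := by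
    intro j
    induction j with
    | zero =>
      intro _ B hB
      refine (Set.finite_singleton B).subset ?_
      rintro D ⟨hD, hBD⟩
      have := Finset.eq_of_subset_of_card_le hBD (by have := hcard D hD; omega)
      exact this.symm
    | succ j ih =>
      intro hj B hB
      obtain ⟨A, hA⟩ := h B (by omega)
      have hsub : {D ∈ 𝒟 | B ⊆ D} ⊆ ⋃ x ∈ (A \ B), {D ∈ 𝒟 | insert x B ⊆ D} := by
        rintro D ⟨hD, hBD⟩
        obtain ⟨x, hxD, hxA, hxB⟩ := hA D hD hBD
        simp only [Set.mem_iUnion]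
        refine ⟨x, Finset.mem_sdiff.mpr ⟨hxA, hxB⟩, hD, ?_⟩
        intro y hy
        rcases Finset.mem_insert.mp hy with rfl | hy
        · exact hxD
        · exact hBD hy
      refine Set.Finite.subset ?_ hsub
      refine Set.Finite.biUnion (Finset.finite_toSet _) fun x hx => ?_
      refine ih (by omega) _ ?_
      have hxB : x ∉ B := (Finset.mem_sdiff.mp (Finset.mem_coe.mp hx)).2
      rw [Finset.card_insert_of_notMem hxB]
      omega
  have := key l le_rfl ∅ (by simp)
  simpa using this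

/-- A countable Delta-system lemma. -/
theorem delta_system {K : Type*} [DecidableEq K] (l : ℕ) (A : ℕ → Finset K)
    (hcard : ∀ j, (A j).card ≤ l) (hfib : ∀ D, {j | A j = D}.Finite) :
    ∃ D₀ : Finset K, D₀.card < l ∧ ∃ φ : ℕ → ℕ, StrictMono φ ∧ (∀ j, D₀ ⊆ A (φ j)) ∧
      ∀ i j, i < j → Disjoint (A (φ i) \ D₀) (A (φ j) \ D₀) := by
  classical
  let P : Finset K → Prop := fun D => {j | D ⊆ A j}.Infinite
  have hP0 : P ∅ := by
    have : {j | (∅ : Finset K) ⊆ A j} = Set.univ := by ext; simp
    change Set.Infinite _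
    rw [this]
    exact Set.infinite_univ
  have hPcard : ∀ D, P D → D.card ≤ l := by
    intro D hD
    obtain ⟨j, hj⟩ := hD.nonempty
    exact (Finset.card_le_card hj).trans (hcard j)
  -- maximal cardinality
  obtain ⟨D₀, hD₀, hmax⟩ : ∃ D₀, P D₀ ∧ ∀ D, P D → D.card ≤ D₀.card := by
    let S : Set ℕ := {k | ∃ D, P D ∧ D.card = k}
    have hS : S.Nonempty := ⟨_, ∅, hP0, rfl⟩
    have hb : BddAbove S := ⟨l, by rintro _ ⟨D, hD, rfl⟩; exact hPcard D hD⟩
    obtain ⟨D₀, hD₀, hk⟩ := Nat.sSup_mem hS hb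
    refine ⟨D₀, hD₀, fun D hD => ?_⟩
    rw [hk]
    exact le_csSup hb ⟨D, hD, rfl⟩
  have hins : ∀ x ∉ D₀, {j | insert x D₀ ⊆ A j}.Finite := by
    intro x hx
    by_contra hcon
    have : P (insert x D₀) := hcon
    have := hmax _ this
    rw [Finset.card_insert_of_notMem hx] at this
    omega
  refine ⟨D₀, ?_, ?_⟩
  · refine lt_of_le_of_ne (hPcard _ hD₀) fun hl => ?_
    have hsub : {j | D₀ ⊆ A j} ⊆ {j | A j = D₀} := by
      intro j hj
      exact (Finset.eq_of_subset_of_card_le hj (by rw [hl]; exact hcard j)).symm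
    exact hD₀ ((hfib D₀).subset hsub)
  · obtain ⟨φ, h1, h2⟩ := exists_seq_of_forall_finset_exists (fun j => D₀ ⊆ A j)
      (fun i j => i < j ∧ Disjoint (A i \ D₀) (A j \ D₀)) (by
        intro s _
        -- the bad indices are finite
        let U : Finset K := s.biUnion (fun i => A i \ D₀)
        have hbad : (⋃ x ∈ U, {j | insert x D₀ ⊆ A j}).Finite := by
          refine Set.Finite.biUnion (Finset.finite_toSet _) fun x hx => hins x ?_
          obtain ⟨i, _, hi⟩ := Finset.mem_biUnion.mp (Finset.mem_coe.mp hx)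
          exact (Finset.mem_sdiff.mp hi).2
        obtain ⟨y, hy, hy2⟩ := (hD₀.sdiff (hbad.union (Set.finite_Iic (s.sup id)))).nonempty
        refine ⟨y, hy, fun i hi => ⟨?_, ?_⟩⟩
        · by_contra hcon
          apply hy2
          right
          have : i ≤ s.sup id := Finset.le_sup (f := id) hi
          exact Set.mem_Iic.mpr (by omega)
        · rw [Finset.disjoint_left]
          intro x hx hxy
          apply hy2
          left
          simp only [Set.mem_iUnion]
          refine ⟨x, Finset.mem_biUnion.mpr ⟨i, hi, hx⟩, ?_⟩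
          intro z hz
          rcases Finset.mem_insert.mp hz with rfl | hz
          · exact (Finset.mem_sdiff.mp hxy).1
          · exact hy hz)
    exact ⟨φ, strictMono_nat_of_lt_succ fun n => (h2 n (n + 1) (Nat.lt_succ_self n)).1, h1,
      fun i j hij => (h2 i j hij).2⟩

end Pool.Agent.Helper87_CpFree
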