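import Pool.Agent.Helper87_CpFree.Pairing
import Pool.Agent.Helper87_CpFree.Combi

/-!
The abstract finite support theorem.
-/

namespace Pool.Agent.Helper87_CpFree

open Filter Topology

/-- The data of the abstract theorem. -/
structure Setup (U K : Type*) [TopologicalSpace K] where
  ev : U → K → ℝ
  ψ : U → ℕ → ℝ
  C : ℝ
  ev_cont : ∀ g, Continuous (ev g)
  summ : ∀ g, Summable fun i => |ψ g i|
  bdd : ∀ g, ∑' i, |ψ g i| ≤ C
  cont : ∀ (a : BB) (f : U) (ε : ℝ), 0 < ε → ∃ (A : Finset K) (η : ℝ), 0 < η ∧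
    ∀ g, (∀ x ∈ A, |ev g x - ev f x| < η) → |pr a (ψ g) - pr a (ψ f)| ≤ ε
  glue : ∀ (p q : U) (A A' : Finset K), Disjoint A A' →
    ∃ g, (∀ x ∈ A, ev g x = ev p x) ∧ ∀ x ∈ A', ev g x = ev q x

namespace Setup

variable {U K : Type*} [TopologicalSpace K] (S : Setup U K)

/-- `D` supports `a` at the center `f` -/
def Supp (f : U) (a : BB) (D : Finset K) (η κ : ℝ) : Prop :=
  ∀ g, (∀ x ∈ D, |S.ev g x - S.ev f x| < η) → |pr a (S.ψ g) - pr a (S.ψ f)| ≤ κ

variable {S}

theorem Supp.mono {f : U} {a : BB} {D D' : Finset K} {η η' κ κ' : ℝ} (h : S.Supp f a D η κ)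
    (hD : D ⊆ D') (hη : η' ≤ η) (hκ : κ ≤ κ') : S.Supp f a D' η' κ' := fun g hg =>
  (h g fun x hx => (hg x (hD hx)).trans_le hη).trans hκ

variable (S)

theorem isClosed_supp (f : U) (D : Finset K) (η κ : ℝ) : IsClosed {a | S.Supp f a D η κ} := by
  have : {a | S.Supp f a D η κ} = ⋂ (g : U) (_ : ∀ x ∈ D, |S.ev g x - S.ev f x| < η),
      {a | |pr a (S.ψ g) - pr a (S.ψ f)| ≤ κ} := by
    ext a
    simp [Supp]
  rw [this]
  refine isClosed_iInter fun g => isClosed_iInter fun _ => ?_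
  exact isClosed_le ((continuous_pr (S.summ g)).sub (continuous_pr (S.summ f))).abs
    continuous_const

theorem isClosed_suppCard [CompactSpace K] [Nonempty K] (f : U) (l : ℕ) (η κ : ℝ) :
    IsClosed {a | ∃ D : Finset K, D.card ≤ l ∧ S.Supp f a D η κ} := by
  classical
  let T : Set (BB × (Fin l → K)) :=
    {p | S.Supp f p.1 (Finset.image p.2 Finset.univ) η κ}
  have hT : IsClosed T := by
    have : T = ⋂ g : U, ((⋃ i : Fin l, {p : BB × (Fin l → K) |
        η ≤ |S.ev g (p.2 i) - S.ev f (p.2 i)|}) ∪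
        {p | |pr p.1 (S.ψ g) - pr p.1 (S.ψ f)| ≤ κ}) := by
      ext p
      simp only [T, Supp, Set.mem_ofPred_eq, Set.mem_iInter, Set.mem_union, Set.mem_iUnion]
      refine forall_congr' fun g => ?_
      constructor
      · intro h
        by_cases hg : ∀ x ∈ Finset.image p.2 Finset.univ, |S.ev g x - S.ev f x| < η
        · exact Or.inr (h hg)
        · left
          push Not at hg
          obtain ⟨x, hx, hx'⟩ := hg
          obtain ⟨i, -, rfl⟩ := Finset.mem_image.mp hx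
          exact ⟨i, hx'⟩
      · rintro (⟨i, hi⟩ | h) hg
        · exact absurd (hg (p.2 i) (Finset.mem_image_of_mem _ (Finset.mem_univ _))) (not_lt.mpr hi)
        · exact h
    rw [this]
    refine isClosed_iInter fun g => IsClosed.union ?_ ?_
    · refine isClosed_iUnion_of_finite fun i => ?_
      refine isClosed_le continuous_const ?_
      have h1 : Continuous fun p : BB × (Fin l → K) => p.2 i :=
        (continuous_apply i).comp continuous_snd
      exact (((S.ev_cont g).comp h1).sub ((S.ev_cont f).comp h1)).abs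
    · exact isClosed_le (((continuous_pr (S.summ g)).comp continuous_fst).sub
        ((continuous_pr (S.summ f)).comp continuous_fst)).abs continuous_const
  have heq : {a | ∃ D : Finset K, D.card ≤ l ∧ S.Supp f a D η κ} = Prod.fst '' T := by
    ext a
    constructor
    · rintro ⟨D, hD, h⟩
      refine ⟨(a, fun i => D.toList.getD i (Classical.arbitrary K)), ?_, rfl⟩
      refine h.mono ?_ le_rfl le_rfl
      intro x hx
      rw [← Finset.mem_toList] at hx
      obtain ⟨n, hn, rfl⟩ := List.mem_iff_getElem.mp hx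
      refine Finset.mem_image.mpr ⟨⟨n, ?_⟩, Finset.mem_univ _, ?_⟩
      · have : D.toList.length = D.card := Finset.length_toList D
        omega
      · exact List.getD_eq_getElem _ _ hn
    · rintro ⟨⟨a', A⟩, h, rfl⟩
      refine ⟨Finset.image A Finset.univ, ?_, h⟩
      exact Finset.card_image_le.trans (by simp)
  rw [heq]
  exact isClosedMap_fst_of_compactSpace _ hT

/-- Inside any nonempty open set there is a nonempty open set with uniform supports. -/
theorem exists_open_supp [CompactSpace K] [Nonempty K] (f : U) {κ : ℝ} (hκ : 0 < κ) {W : Set BB}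
    (hW : IsOpen W) (hne : W.Nonempty) :
    ∃ (l : ℕ) (η : ℝ) (W' : Set BB), 0 < η ∧ IsOpen W' ∧ W'.Nonempty ∧ W' ⊆ W ∧
      ∀ a ∈ W', ∃ D : Finset K, D.card ≤ l ∧ S.Supp f a D η κ := by
  let F : ℕ → Set BB := fun n =>
    {a | ∃ D : Finset K, D.card ≤ n ∧ S.Supp f a D (1 / ((n : ℝ) + 1)) κ}
  have hF : ∀ n, IsClosed (F n) := fun n => S.isClosed_suppCard f n _ κ
  have hcov : W ⊆ ⋃ n, F n := by
    intro a _
    obtain ⟨A, η, hη, hA⟩ := S.cont a f κ hκ
    obtain ⟨n, hn⟩ := exists_nat_one_div_lt hη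
    refine Set.mem_iUnion.mpr ⟨max n A.card, A, le_max_right _ _, ?_⟩
    have h1 : (1 : ℝ) / (((max n A.card : ℕ) : ℝ) + 1) ≤ 1 / ((n : ℝ) + 1) := by
      apply one_div_le_one_div_of_le (by positivity)
      have : (n : ℝ) ≤ ((max n A.card : ℕ) : ℝ) := by exact_mod_cast le_max_left _ _
      linarith
    have h2 : S.Supp f a A η κ := hA
    exact h2.mono subset_rfl (h1.trans hn.le) le_rfl
  obtain ⟨n, hn⟩ := baire_cover hW hne F hF hcov
  refine ⟨n, 1 / ((n : ℝ) + 1), interior (F n) ∩ W, by positivity,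
    isOpen_interior.inter hW, hn, Set.inter_subset_right, ?_⟩
  intro a ha
  have h3 : a ∈ F n := interior_subset ha.1
  exact h3

/-- Uniform supports (in the exact sense) for all functionals. -/
theorem uniform_supp [CompactSpace K] [Nonempty K] (q : U) {δ : ℝ} (hδ : 0 < δ) :
    ∃ L : ℕ, ∀ a : BB, ∃ D : Finset K, D.card ≤ L ∧
      ∀ g, (∀ x ∈ D, S.ev g x = S.ev q x) → |pr a (S.ψ g) - pr a (S.ψ q)| ≤ δ := by
  classical
  obtain ⟨l, η, W, hη, hWo, hWne, -, hW⟩ :=
    S.exists_open_supp q (half_pos hδ) isOpen_univ ⟨coordB 0, trivial⟩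
  obtain ⟨s, hs⟩ := diff_trick hWo hWne
  -- supports for coordinates
  have hcoord : ∀ i : ℕ, ∃ E : Finset K, ∀ g, (∀ x ∈ E, S.ev g x = S.ev q x) →
      |S.ψ g i - S.ψ q i| ≤ δ / (2 * ((s : ℝ) + 1)) := by
    intro i
    obtain ⟨E, η', hη', hE⟩ := S.cont (coordB i) q (δ / (2 * ((s : ℝ) + 1))) (by positivity)
    refine ⟨E, fun g hg => ?_⟩
    have := hE g (fun x hx => by rw [hg x hx]; simpa using hη')
    rwa [pr_coordB, pr_coordB] at this
  choose E hE using hcoord
  refine ⟨l + l + ∑ i ∈ Finset.range s, (E i).card, fun a => ?_⟩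
  obtain ⟨b, hb, c, hc, hbc⟩ := hs (cutB s a) (fun i hi => by simp [cutB, hi])
  obtain ⟨Db, hDb, hDb'⟩ := hW b hb
  obtain ⟨Dc, hDc, hDc'⟩ := hW c hc
  refine ⟨(Db ∪ Dc) ∪ (Finset.range s).biUnion E, ?_, ?_⟩
  · refine (Finset.card_union_le _ _).trans (add_le_add ?_ Finset.card_biUnion_le)
    exact (Finset.card_union_le _ _).trans (add_le_add hDb hDc)
  · intro g hg
    have h1 : |pr b (S.ψ g) - pr b (S.ψ q)| ≤ δ / 2 := by
      refine hDb' g fun x hx => ?_
      rw [hg x (by simp [hx])]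
      simpa using hη
    have h2 : |pr c (S.ψ g) - pr c (S.ψ q)| ≤ δ / 2 := by
      refine hDc' g fun x hx => ?_
      rw [hg x (by simp [hx])]
      simpa using hη
    have h3 : ∀ i ∈ Finset.range s, |S.ψ g i - S.ψ q i| ≤ δ / (2 * ((s : ℝ) + 1)) := by
      intro i hi
      refine hE i g fun x hx => hg x ?_
      rw [Finset.mem_union]
      exact Or.inr (Finset.mem_biUnion.mpr ⟨i, hi, hx⟩)
    have h4 : 2 * pr (cutB s a) (S.ψ g) = pr b (S.ψ g) - pr c (S.ψ g) :=
      (pr_diff hbc (S.summ g)).symm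
    have h5 : 2 * pr (cutB s a) (S.ψ q) = pr b (S.ψ q) - pr c (S.ψ q) :=
      (pr_diff hbc (S.summ q)).symm
    have h6 : |pr (cutB s a) (S.ψ g) - pr (cutB s a) (S.ψ q)| ≤ δ / 2 := by
      rw [abs_le] at h1 h2 ⊢
      constructor <;> linarith [h1.1, h1.2, h2.1, h2.2]
    rw [pr_cut s a (S.summ g), pr_cut s a (S.summ q)]
    have h7 : |∑ i ∈ Finset.range s, (a i : ℝ) * S.ψ g i -
        ∑ i ∈ Finset.range s, (a i : ℝ) * S.ψ q i| ≤ δ / 2 := by
      rw [← Finset.sum_sub_distrib]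
      refine (Finset.abs_sum_le_sum_abs _ _).trans ?_
      calc ∑ i ∈ Finset.range s, |(a i : ℝ) * S.ψ g i - (a i : ℝ) * S.ψ q i|
          ≤ ∑ i ∈ Finset.range s, δ / (2 * ((s : ℝ) + 1)) := by
            refine Finset.sum_le_sum fun i hi => ?_
            rw [← mul_sub, abs_mul]
            calc |(a i : ℝ)| * |S.ψ g i - S.ψ q i| ≤ 1 * (δ / (2 * ((s : ℝ) + 1))) := by
                  gcongr
                  · exact abs_coe_le _
                  · exact h3 i hi
              _ = _ := one_mul _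
        _ = s * (δ / (2 * ((s : ℝ) + 1))) := by simp
        _ ≤ δ / 2 := by
            rw [mul_div_assoc', div_le_div_iff₀ (by positivity) (by positivity)]
            nlinarith
    have : (∑ i ∈ Finset.range s, (a i : ℝ) * S.ψ g i + pr (cutB s a) (S.ψ g)) -
        (∑ i ∈ Finset.range s, (a i : ℝ) * S.ψ q i + pr (cutB s a) (S.ψ q)) =
        (∑ i ∈ Finset.range s, (a i : ℝ) * S.ψ g i -
        ∑ i ∈ Finset.range s, (a i : ℝ) * S.ψ q i) +
        (pr (cutB s a) (S.ψ g) - pr (cutB s a) (S.ψ q)) := by ring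
    rw [this]
    refine (abs_add_le _ _).trans ?_
    linarith

/-- If all functionals in an open set have the same support then we are done. -/
theorem good_of_open (f : U) {κ κ' η : ℝ} (hκ : κ' ≤ κ) (hη : 0 < η) {D : Finset K} {W : Set BB}
    (hW : IsOpen W) (hne : W.Nonempty) (h : ∀ a ∈ W, S.Supp f a D η κ') :
    ∃ (D : Finset K) (η : ℝ) (s : ℕ), 0 < η ∧ ∀ g, (∀ x ∈ D, |S.ev g x - S.ev f x| < η) →
      ∀ a : BB, (∀ i < s, (a i : ℝ) = 0) → |pr a (S.ψ g) - pr a (S.ψ f)| ≤ κ := by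
  obtain ⟨s, hs⟩ := diff_trick hW hne
  refine ⟨D, η, s, hη, fun g hg a ha => ?_⟩
  obtain ⟨b, hb, c, hc, hbc⟩ := hs a ha
  have h1 := h b hb g hg
  have h2 := h c hc g hg
  have h4 : 2 * pr a (S.ψ g) = pr b (S.ψ g) - pr c (S.ψ g) := (pr_diff hbc (S.summ g)).symm
  have h5 : 2 * pr a (S.ψ f) = pr b (S.ψ f) - pr c (S.ψ f) := (pr_diff hbc (S.summ f)).symm
  rw [abs_le] at h1 h2 ⊢
  constructor <;> linarith [h1.1, h1.2, h2.1, h2.2]

end Setup

end Pool.Agent.Helper87_CpFree
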