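import Pool.Agent.Helper87_CpFree.Pairing

/-!
Uniform boundedness, and small facts about finitely supported sequences.
-/

namespace Pool.Agent.Helper87_CpFree

open Filter Topology

theorem pr_sgnTail (s : ℕ) {y : ℕ → ℝ} (hy : Summable fun i => |y i|) :
    ∑' i, |y i| = ∑ i ∈ Finset.range s, |y i| + pr (sgnTail s y) y := by
  unfold pr
  rw [← hy.sum_add_tsum_nat_add s, ← (summable_pr (sgnTail s y) hy).sum_add_tsum_nat_add s]
  have h1 : ∑ i ∈ Finset.range s, (sgnTail s y i : ℝ) * y i = 0 := by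
    apply Finset.sum_eq_zero
    intro i hi
    rw [Finset.mem_range] at hi
    rw [sgnTail_zero hi, zero_mul]
  rw [h1, zero_add]
  congr 2
  ext i
  rw [sgnTail_mul (by omega)]

/-- Uniform boundedness for sequences of absolutely summable sequences. -/
theorem unif_bdd (v : ℕ → ℕ → ℝ) (hv : ∀ k, Summable fun i => |v k i|)
    (h : ∀ a : BB, ∃ n : ℕ, ∀ k, |pr a (v k)| ≤ n) : ∃ C : ℝ, ∀ k, ∑' i, |v k i| ≤ C := by
  let F : ℕ → Set BB := fun n => {a | ∀ k, |pr a (v k)| ≤ n}
  have hF : ∀ n, IsClosed (F n) := by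
    intro n
    have : F n = ⋂ k, {a | |pr a (v k)| ≤ n} := by
      ext a
      simp [F]
    rw [this]
    exact isClosed_iInter fun k => isClosed_le (continuous_pr (hv k)).abs continuous_const
  have hcov : (Set.univ : Set BB) ⊆ ⋃ n, F n := by
    intro a _
    obtain ⟨n, hn⟩ := h a
    exact Set.mem_iUnion.mpr ⟨n, hn⟩
  obtain ⟨n, hn⟩ := baire_cover isOpen_univ ⟨coordB 0, trivial⟩ F hF hcov
  rw [Set.inter_univ] at hn
  obtain ⟨s, hs⟩ := diff_trick isOpen_interior hn
  have hcoord : ∀ i : ℕ, ∃ n : ℕ, ∀ k, |v k i| ≤ n := by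
    intro i
    obtain ⟨n, hn⟩ := h (coordB i)
    refine ⟨n, fun k => ?_⟩
    have := hn k
    rwa [pr_coordB] at this
  choose N hN using hcoord
  refine ⟨∑ i ∈ Finset.range s, (N i : ℝ) + n, fun k => ?_⟩
  rw [pr_sgnTail s (hv k)]
  refine add_le_add (Finset.sum_le_sum fun i _ => hN i k) ?_
  obtain ⟨b, hb, c, hc, hbc⟩ := hs (sgnTail s (v k)) (fun i hi => sgnTail_zero hi)
  have h1 : |pr b (v k)| ≤ n := by
    have : b ∈ F n := interior_subset hb
    exact this k
  have h2 : |pr c (v k)| ≤ n := by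
    have : c ∈ F n := interior_subset hc
    exact this k
  have h3 := pr_diff hbc (hv k)
  rw [abs_le] at h1 h2
  linarith [h1.2, h2.1]

theorem summable_finsupp (y : ℕ →₀ ℝ) : Summable fun i => |y i| := by
  have h : (Function.support fun i => |y i|) ⊆ y.support := by
    intro i hi
    simpa using hi
  exact summable_of_hasFiniteSupport (y.support.finite_toSet.subset h)

/-- the `ℓ¹` norm of a finitely supported sequence -/
noncomputable def nrm (y : ℕ →₀ ℝ) : ℝ := ∑' i, |y i|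

theorem nrm_zero : nrm 0 = 0 := by simp [nrm]

theorem nrm_smul (c : ℝ) (y : ℕ →₀ ℝ) : nrm (c • y) = |c| * nrm y := by
  unfold nrm
  rw [← tsum_mul_left]
  congr 1
  ext i
  rw [Finsupp.smul_apply, smul_eq_mul, abs_mul]

theorem abs_le_nrm (y : ℕ →₀ ℝ) (i : ℕ) : |y i| ≤ nrm y :=
  (summable_finsupp y).le_tsum i fun _ _ => abs_nonneg _

theorem nrm_pos {y : ℕ →₀ ℝ} (hy : y ≠ 0) : 0 < nrm y := by
  obtain ⟨i, hi⟩ := Finsupp.ne_iff.mp hy
  exact (abs_pos.mpr hi).trans_le (abs_le_nrm y i)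

theorem abs_sum_le (y : ℕ →₀ ℝ) (b : ℕ → ℝ) (B : ℝ) (hb : ∀ i, |b i| ≤ B) :
    |y.sum fun i c => c * b i| ≤ B * nrm y := by
  have hB : 0 ≤ B := (abs_nonneg _).trans (hb 0)
  rw [Finsupp.sum]
  refine (Finset.abs_sum_le_sum_abs _ _).trans ?_
  calc ∑ i ∈ y.support, |y i * b i| ≤ ∑ i ∈ y.support, B * |y i| := by
        refine Finset.sum_le_sum fun i _ => ?_
        rw [abs_mul, mul_comm]
        gcongr
        exact hb i
    _ = B * ∑ i ∈ y.support, |y i| := by rw [Finset.mul_sum]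
    _ ≤ B * nrm y := by
        gcongr
        exact (summable_finsupp y).sum_le_tsum _ fun i _ => abs_nonneg _

/-- Finitely many functionals have a common zero supported on a tail. -/
theorem exists_common_zero {ι : Type} [Finite ι] (b : ι → ℕ → ℝ) (s : ℕ) :
    ∃ y : ℕ →₀ ℝ, y ≠ 0 ∧ (∀ i < s, y i = 0) ∧ ∀ t, (y.sum fun i c => c * b t i) = 0 := by
  classical
  cases nonempty_fintype ι
  let b' : ι ⊕ Fin s → ℕ → ℝ := fun t i =>
    Sum.elim (fun t : ι => b t i) (fun j : Fin s => if i = (j : ℕ) then (1 : ℝ) else 0) t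
  let T : (ℕ →₀ ℝ) →ₗ[ℝ] (ι ⊕ Fin s → ℝ) := Finsupp.linearCombination ℝ fun i t => b' t i
  have hT : ∀ y t, T y t = y.sum fun i c => c * b' t i := by
    intro y t
    simp only [T, Finsupp.linearCombination_apply, Finsupp.sum, Finset.sum_apply, Pi.smul_apply,
      smul_eq_mul]
  have hker : ¬ Function.Injective T := by
    intro hinj
    have := Module.Finite.of_injective T hinj
    rcases Module.finite_finsupp_self_iff.mp this with h | h
    · exact not_subsingleton ℝ h
    · exact not_finite ℕ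
  rw [← LinearMap.ker_eq_bot, Submodule.eq_bot_iff] at hker
  push Not at hker
  obtain ⟨y, hy, hy0⟩ := hker
  rw [LinearMap.mem_ker] at hy
  refine ⟨y, hy0, fun i hi => ?_, fun t => ?_⟩
  · have h1 := congrFun hy (Sum.inr ⟨i, hi⟩)
    rw [hT] at h1
    simpa [b', Finsupp.sum] using h1
  · have h1 := congrFun hy (Sum.inl t)
    rw [hT] at h1
    exact h1

theorem exists_common {α : Type*} (A : Finset α) (P : α → ℝ → Prop)
    (h : ∀ x ∈ A, ∃ η : ℝ, 0 < η ∧ P x η) (mono : ∀ x η η', η' ≤ η → P x η → P x η') :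
    ∃ η : ℝ, 0 < η ∧ ∀ x ∈ A, P x η := by
  classical
  induction A using Finset.induction_on with
  | empty => exact ⟨1, one_pos, by simp⟩
  | insert a A ha ih =>
    obtain ⟨η₁, h₁, hP₁⟩ := ih fun x hx => h x (Finset.mem_insert_of_mem hx)
    obtain ⟨η₂, h₂, hP₂⟩ := h a (Finset.mem_insert_self _ _)
    refine ⟨min η₁ η₂, lt_min h₁ h₂, fun x hx => ?_⟩
    rcases Finset.mem_insert.mp hx with rfl | hx
    · exact mono _ _ _ (min_le_right _ _) hP₂
    · exact mono _ _ _ (min_le_left _ _) (hP₁ x hx)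

end Pool.Agent.Helper87_CpFree
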