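import Pool.Agent.Helper87_CpFree.Main
import Pool.Agent.Helper87_CpFree.UnifBdd

/-!
`(ℓ¹)_w` is not a retract of a space `C_p(M)`.
-/

namespace Pool.Agent.Helper87_CpFree

open Filter Topology

section Ext

variable {M : Type*} [TopologicalSpace M]

theorem continuous_clamp (g : C(M, ℝ)) :
    Continuous fun x => Set.projIcc (-2 : ℝ) 2 (by norm_num) (g x) :=
  continuous_projIcc.comp g.continuous

/-- Extension of a bounded function to the Stone-Čech compactification. -/
noncomputable def ext (g : C(M, ℝ)) (z : StoneCech M) : ℝ :=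
  (stoneCechExtend (continuous_clamp g) z : Set.Icc (-2 : ℝ) 2)

theorem continuous_ext (g : C(M, ℝ)) : Continuous (ext g) :=
  continuous_subtype_val.comp (continuous_stoneCechExtend _)

theorem ext_unit (g : C(M, ℝ)) {x : M} (h : g x ∈ Set.Icc (-2 : ℝ) 2) :
    ext g (stoneCechUnit x) = g x := by
  unfold ext
  rw [stoneCechExtend_stoneCechUnit, Set.projIcc_of_mem _ h]

theorem ext_unique (g : C(M, ℝ)) (h : ∀ x, g x ∈ Set.Icc (-2 : ℝ) 2) {F : StoneCech M → ℝ}
    (hF : Continuous F) (hFg : ∀ x, F (stoneCechUnit x) = g x) : ext g = F := by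
  refine (denseRange_stoneCechUnit).equalizer (continuous_ext g) hF ?_
  ext x
  simp only [Function.comp]
  rw [ext_unit g (h x), hFg x]

end Ext

/-- The data of a retraction of `C_p(M)` onto `(ℓ¹)_w` (with the section only defined on finitely
supported sequences). -/
structure Retr (M : Type*) [TopologicalSpace M] where
  Ψ : C(M, ℝ) → ℕ → ℝ
  s : (ℕ →₀ ℝ) → C(M, ℝ)
  summ : ∀ G, Summable fun i => |Ψ G i|
  cont : ∀ (a : BB) (F : C(M, ℝ)) (ε : ℝ), 0 < ε → ∃ (A : Finset M) (η : ℝ), 0 < η ∧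
    ∀ G : C(M, ℝ), (∀ x ∈ A, |G x - F x| < η) → |pr a (Ψ G) - pr a (Ψ F)| ≤ ε
  scont : ∀ (x : M) (ε : ℝ), 0 < ε → ∃ (n : ℕ) (b : Fin n → ℕ → ℝ) (B : ℝ) (δ : ℝ), 0 < δ ∧
    (∀ t i, |b t i| ≤ B) ∧
    ∀ y : ℕ →₀ ℝ, (∀ t, |y.sum fun i c => c * b t i| < δ) → |s y x - s 0 x| < ε
  inv : ∀ y : ℕ →₀ ℝ, Ψ (s y) = y

namespace Retr

variable {M : Type*} [TopologicalSpace M] (R : Retr M)

/-- bounded coordinates of the section -/
noncomputable def s' (y : ℕ →₀ ℝ) (x : M) : ℝ := Real.arctan (R.s y x)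

theorem s'_mem (y : ℕ →₀ ℝ) (x : M) : R.s' y x ∈ Set.Ioo (-(Real.pi / 2)) (Real.pi / 2) :=
  Real.arctan_mem_Ioo _

/-- The convex-like neighbourhood of the image of the ball of radius `r`. -/
def UU (r : ℝ) : Type _ := {g : C(M, ℝ) // ∀ x, ∃ y y' : ℕ →₀ ℝ, nrm y ≤ r ∧ nrm y' ≤ r ∧
  R.s' y x ≤ g x ∧ g x ≤ R.s' y' x}

variable {R} in
theorem mem_Ioo {r : ℝ} (g : R.UU r) (x : M) :
    g.1 x ∈ Set.Ioo (-(Real.pi / 2)) (Real.pi / 2) := by
  obtain ⟨y, y', -, -, h1, h2⟩ := g.2 x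
  exact ⟨(R.s'_mem y x).1.trans_le h1, h2.trans_lt (R.s'_mem y' x).2⟩

variable {R} in
theorem mem_Icc {r : ℝ} (g : R.UU r) (x : M) : g.1 x ∈ Set.Icc (-2 : ℝ) 2 := by
  have h := mem_Ioo g x
  have hpi := Real.pi_lt_d2
  constructor
  · have := h.1; linarith
  · have := h.2; linarith

/-- `tan ∘ g` -/
noncomputable def tang {r : ℝ} (g : R.UU r) : C(M, ℝ) :=
  ⟨fun x => Real.tan (g.1 x), by
    refine Real.continuousOn_tan_Ioo.comp_continuous g.1.continuous fun x => mem_Ioo g x⟩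

theorem tang_apply {r : ℝ} (g : R.UU r) (x : M) : R.tang g x = Real.tan (g.1 x) := rfl

/-- `s' y` as an element of `UU r` -/
noncomputable def sU {r : ℝ} (y : ℕ →₀ ℝ) (hy : nrm y ≤ r) : R.UU r :=
  ⟨⟨R.s' y, Real.continuous_arctan.comp (R.s y).continuous⟩,
    fun _ => ⟨y, y, hy, hy, le_rfl, le_rfl⟩⟩

theorem tang_sU {r : ℝ} (y : ℕ →₀ ℝ) (hy : nrm y ≤ r) : R.tang (R.sU y hy) = R.s y := by
  ext x
  rw [tang_apply]
  exact Real.tan_arctan _

theorem contM {r : ℝ} (a : BB) (f : R.UU r) (ε : ℝ) (hε : 0 < ε) :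
    ∃ (A : Finset M) (η : ℝ), 0 < η ∧ ∀ g : R.UU r, (∀ x ∈ A, |g.1 x - f.1 x| < η) →
      |pr a (R.Ψ (R.tang g)) - pr a (R.Ψ (R.tang f))| ≤ ε := by
  obtain ⟨A, η, hη, hA⟩ := R.cont a (R.tang f) ε hε
  obtain ⟨η', hη', h⟩ := exists_common A
    (fun x η' => ∀ t : ℝ, |t - f.1 x| < η' → |Real.tan t - Real.tan (f.1 x)| < η)
    (by
      intro x _
      have hc : ContinuousAt Real.tan (f.1 x) :=
        Real.continuousAt_tan.mpr (Real.cos_pos_of_mem_Ioo (mem_Ioo f x)).ne'
      obtain ⟨δ, hδ, h⟩ := Metric.continuousAt_iff.mp hc η hη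
      refine ⟨δ, hδ, fun t ht => ?_⟩
      have := h (x := t) (by rwa [Real.dist_eq])
      rwa [Real.dist_eq] at this)
    (by
      intro x η₁ η₂ h12 h t ht
      exact h t (ht.trans_le h12))
  refine ⟨A, η', hη', fun g hg => hA _ fun x hx => ?_⟩
  rw [tang_apply, tang_apply]
  exact h x hx _ (hg x hx)

theorem glueU {r : ℝ} (p q : R.UU r) (A A' : Finset (StoneCech M)) (hd : Disjoint A A') :
    ∃ g : R.UU r, (∀ x ∈ A, ext g.1 x = ext p.1 x) ∧ ∀ x ∈ A', ext g.1 x = ext q.1 x := by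
  obtain ⟨θ, h0, h1, h01⟩ := exists_continuous_zero_one_of_isClosed
    (A'.finite_toSet.isClosed) (A.finite_toSet.isClosed)
    (by rw [Finset.disjoint_coe]; exact hd.symm)
  let g : C(M, ℝ) := ⟨fun x => θ (stoneCechUnit x) * p.1 x + (1 - θ (stoneCechUnit x)) * q.1 x, by
    have : Continuous fun x : M => θ (stoneCechUnit x) := θ.continuous.comp continuous_stoneCechUnit
    exact (this.mul p.1.continuous).add ((continuous_const.sub this).mul q.1.continuous)⟩
  have hg : ∀ x, g x = θ (stoneCechUnit x) * p.1 x + (1 - θ (stoneCechUnit x)) * q.1 x :=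
    fun _ => rfl
  have hgU : ∀ x, ∃ y y' : ℕ →₀ ℝ, nrm y ≤ r ∧ nrm y' ≤ r ∧
      R.s' y x ≤ g x ∧ g x ≤ R.s' y' x := by
    intro x
    have hθ := h01 (stoneCechUnit x)
    have hmin : min (p.1 x) (q.1 x) ≤ g x := by
      rw [hg]
      have e1 : min (p.1 x) (q.1 x) = θ (stoneCechUnit x) * min (p.1 x) (q.1 x) +
        (1 - θ (stoneCechUnit x)) * min (p.1 x) (q.1 x) := by ring
      rw [e1]
      refine add_le_add ?_ ?_
      · exact mul_le_mul_of_nonneg_left (min_le_left _ _) hθ.1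
      · exact mul_le_mul_of_nonneg_left (min_le_right _ _) (by linarith [hθ.2])
    have hmax : g x ≤ max (p.1 x) (q.1 x) := by
      rw [hg]
      have e1 : max (p.1 x) (q.1 x) = θ (stoneCechUnit x) * max (p.1 x) (q.1 x) +
        (1 - θ (stoneCechUnit x)) * max (p.1 x) (q.1 x) := by ring
      rw [e1]
      refine add_le_add ?_ ?_
      · exact mul_le_mul_of_nonneg_left (le_max_left _ _) hθ.1
      · exact mul_le_mul_of_nonneg_left (le_max_right _ _) (by linarith [hθ.2])
    obtain ⟨y1, y1', a1, a2, a3, a4⟩ := p.2 x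
    obtain ⟨y2, y2', b1, b2, b3, b4⟩ := q.2 x
    have hlow : ∃ y, nrm y ≤ r ∧ R.s' y x ≤ min (p.1 x) (q.1 x) := by
      rcases le_total (p.1 x) (q.1 x) with h | h
      · exact ⟨y1, a1, by rw [min_eq_left h]; exact a3⟩
      · exact ⟨y2, b1, by rw [min_eq_right h]; exact b3⟩
    have hhigh : ∃ y, nrm y ≤ r ∧ max (p.1 x) (q.1 x) ≤ R.s' y x := by
      rcases le_total (p.1 x) (q.1 x) with h | h
      · exact ⟨y2', b2, by rw [max_eq_right h]; exact b4⟩
      · exact ⟨y1', a2, by rw [max_eq_left h]; exact a4⟩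
    obtain ⟨y, hy, hy'⟩ := hlow
    obtain ⟨z, hz, hz'⟩ := hhigh
    exact ⟨y, z, hy, hz, hy'.trans hmin, hmax.trans hz'⟩
  let gU : R.UU r := ⟨g, hgU⟩
  have hext : ext g = fun z => θ z * ext p.1 z + (1 - θ z) * ext q.1 z := by
    refine ext_unique g (fun x => mem_Icc gU x) ?_ ?_
    · exact (θ.continuous.mul (continuous_ext _)).add
        ((continuous_const.sub θ.continuous).mul (continuous_ext _))
    · intro x
      rw [ext_unit p.1 (mem_Icc p x), ext_unit q.1 (mem_Icc q x), hg]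
  refine ⟨gU, fun z hz => ?_, fun z hz => ?_⟩
  · change ext g z = _
    have : θ z = 1 := h1 hz
    rw [hext]
    simp only [this]
    ring
  · change ext g z = _
    have : θ z = 0 := h0 hz
    rw [hext]
    simp only [this]
    ring

/-- The setup for the abstract theorem. -/
noncomputable def setup {r C : ℝ} (hC : ∀ g : R.UU r, ∑' i, |R.Ψ (R.tang g) i| ≤ C) :
    Setup (R.UU r) (StoneCech M) where
  ev g := ext g.1
  ψ g := R.Ψ (R.tang g)
  C := C
  ev_cont g := continuous_ext g.1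
  summ g := R.summ _
  bdd := hC
  cont a f ε hε := by
    classical
    obtain ⟨A, η, hη, hA⟩ := R.contM a f ε hε
    refine ⟨A.image stoneCechUnit, η, hη, fun g hg => hA g fun x hx => ?_⟩
    have := hg (stoneCechUnit x) (Finset.mem_image_of_mem _ hx)
    rwa [ext_unit g.1 (mem_Icc g x), ext_unit f.1 (mem_Icc f x)] at this
  glue p q A A' h := R.glueU p q A A' h

/-- continuity of the section at `0` in the norm -/
theorem scont_norm (x : M) {ε : ℝ} (hε : 0 < ε) :
    ∃ δ : ℝ, 0 < δ ∧ ∀ y : ℕ →₀ ℝ, nrm y ≤ δ → |R.s y x - R.s 0 x| < ε := by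
  obtain ⟨n, b, B, δ, hδ, hB, h⟩ := R.scont x ε hε
  refine ⟨δ / (2 * (|B| + 1)), by positivity, fun y hy => h y fun t => ?_⟩
  have h1 := abs_sum_le y (b t) (|B| + 1) (fun i => by
    have := hB t i
    have := le_abs_self B
    linarith)
  have hB' : 0 < |B| + 1 := by positivity
  calc _ ≤ (|B| + 1) * nrm y := h1
    _ ≤ (|B| + 1) * (δ / (2 * (|B| + 1))) := by gcongr
    _ = δ / 2 := by field_simp
    _ < δ := by linarith

theorem abs_arctan_sub_le (u v : ℝ) : |Real.arctan u - Real.arctan v| ≤ |u - v| := by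
  wlog h : v ≤ u generalizing u v
  · rw [abs_sub_comm, abs_sub_comm u v]
    exact this v u (le_of_not_ge h)
  have h1 : Real.arctan v ≤ Real.arctan u := Real.arctan_strictMono.monotone h
  rw [abs_of_nonneg (by linarith), abs_of_nonneg (by linarith)]
  have hmono : Antitone fun t : ℝ => Real.arctan t - t := by
    refine antitone_of_deriv_nonpos (Real.differentiable_arctan.sub differentiable_id) fun t => ?_
    have : HasDerivAt (fun t : ℝ => Real.arctan t - t) (1 / (1 + t ^ 2) - 1) t :=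
      (Real.hasDerivAt_arctan t).sub (hasDerivAt_id t)
    rw [this.deriv, sub_nonpos, div_le_one (by positivity)]
    nlinarith [sq_nonneg t]
  have := hmono h
  simp only at this
  linarith

theorem bounded_near_zero : ∃ r : ℝ, 0 < r ∧ ∃ C : ℝ, ∀ g : R.UU r,
    ∑' i, |R.Ψ (R.tang g) i| ≤ C := by
  by_contra hcon
  push Not at hcon
  have hch : ∀ k : ℕ, ∃ g : R.UU (1 / ((k : ℝ) + 1)), (k : ℝ) < ∑' i, |R.Ψ (R.tang g) i| :=
    fun k => hcon _ (by positivity) k
  choose g hg using hch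
  -- pointwise convergence
  have hpt : ∀ x, Tendsto (fun k => R.tang (g k) x) atTop (𝓝 (R.s 0 x)) := by
    intro x
    have h1 : Tendsto (fun k => (g k).1 x) atTop (𝓝 (Real.arctan (R.s 0 x))) := by
      rw [Metric.tendsto_atTop]
      intro ε hε
      obtain ⟨δ, hδ, hδ'⟩ := R.scont_norm x hε
      obtain ⟨n, hn⟩ := exists_nat_one_div_lt hδ
      refine ⟨n, fun k hk => ?_⟩
      obtain ⟨y, y', h1, h2, h3, h4⟩ := (g k).2 x
      have hk' : (1 : ℝ) / ((k : ℝ) + 1) ≤ δ := by
        have : (1 : ℝ) / ((k : ℝ) + 1) ≤ 1 / ((n : ℝ) + 1) := by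
          apply one_div_le_one_div_of_le (by positivity)
          have : (n : ℝ) ≤ k := by exact_mod_cast hk
          linarith
        linarith
      have a1 := (abs_arctan_sub_le (R.s y x) (R.s 0 x)).trans_lt (hδ' y (h1.trans hk'))
      have a2 := (abs_arctan_sub_le (R.s y' x) (R.s 0 x)).trans_lt (hδ' y' (h2.trans hk'))
      rw [Real.dist_eq, abs_lt]
      rw [abs_lt] at a1 a2
      simp only [s'] at h3 h4
      constructor <;> linarith [a1.1, a1.2, a2.1, a2.2]
    have hc : ContinuousAt Real.tan (Real.arctan (R.s 0 x)) :=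
      Real.continuousAt_tan.mpr (Real.cos_pos_of_mem_Ioo (Real.arctan_mem_Ioo _)).ne'
    have := hc.tendsto.comp h1
    rw [Real.tan_arctan] at this
    exact this
  have hb : ∀ a : BB, ∃ n : ℕ, ∀ k, |pr a (R.Ψ (R.tang (g k)))| ≤ n := by
    intro a
    have hlim : Tendsto (fun k => |pr a (R.Ψ (R.tang (g k))) - pr a (R.Ψ (R.s 0))|) atTop
        (𝓝 0) := by
      rw [Metric.tendsto_atTop]
      intro ε hε
      obtain ⟨A, η, hη, hA⟩ := R.cont a (R.s 0) (ε / 2) (half_pos hε)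
      have hev : ∀ᶠ k in atTop, ∀ x ∈ A, |R.tang (g k) x - R.s 0 x| < η := by
        rw [Filter.eventually_all_finset]
        intro x _
        have := Metric.tendsto_nhds.mp (hpt x) η hη
        simpa only [Real.dist_eq] using this
      obtain ⟨n, hn⟩ := Filter.eventually_atTop.mp hev
      refine ⟨n, fun k hk => ?_⟩
      rw [Real.dist_eq, sub_zero, abs_abs]
      have := hA _ (hn k hk)
      linarith
    obtain ⟨C, hC⟩ := hlim.bddAbove_range
    obtain ⟨n, hn⟩ := exists_nat_ge (C + |pr a (R.Ψ (R.s 0))|)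
    refine ⟨n, fun k => ?_⟩
    have h1 : |pr a (R.Ψ (R.tang (g k))) - pr a (R.Ψ (R.s 0))| ≤ C := hC (Set.mem_range_self k)
    have h2 := abs_sub_abs_le_abs_sub (pr a (R.Ψ (R.tang (g k)))) (pr a (R.Ψ (R.s 0)))
    linarith
  obtain ⟨C, hC⟩ := unif_bdd (fun k => R.Ψ (R.tang (g k))) (fun k => R.summ _) hb
  obtain ⟨n, hn⟩ := exists_nat_ge C
  have h1 : ∑' i, |R.Ψ (R.tang (g n)) i| ≤ C := hC n
  have h2 := hg n
  linarith

include R in
/-- `(ℓ¹)_w` is not a retract of `C_p(M)`. -/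
theorem false_of_retr : False := by
  classical
  obtain ⟨r, hr, C, hC⟩ := R.bounded_near_zero
  let S := R.setup hC
  have hne : Nonempty (StoneCech M) := by
    by_contra hemp
    rw [not_nonempty_iff] at hemp
    have hM : IsEmpty M := ⟨fun x => hemp.false (stoneCechUnit x)⟩
    have h1 : R.s 0 = R.s (Finsupp.single 0 1) := by
      ext x
      exact (hM.false x).elim
    have h2 := congrArg R.Ψ h1
    rw [R.inv, R.inv] at h2
    have := congrFun h2 0
    simp at this
  let f : R.UU r := R.sU 0 (by rw [nrm_zero]; exact hr.le)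
  obtain ⟨D, η, s, hη, hD⟩ := S.good f (κ := r / 4) (by positivity)
  -- the part of `D` in `M`
  obtain ⟨D', hD'⟩ : ∃ D' : Finset M, ∀ z ∈ D, z ∈ Set.range (stoneCechUnit : M → StoneCech M) →
      ∃ x ∈ D', stoneCechUnit x = z := by
    let p : StoneCech M → Option M := fun z =>
      if h : z ∈ Set.range (stoneCechUnit : M → StoneCech M) then some h.choose else none
    refine ⟨D.biUnion fun z => (p z).toFinset, fun z hz hz' => ?_⟩
    refine ⟨hz'.choose, ?_, hz'.choose_spec⟩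
    refine Finset.mem_biUnion.mpr ⟨z, hz, ?_⟩
    simp only [p]
    rw [dif_pos hz']
    simp
  -- functionals
  choose n b B δ hδ hB hs using fun x : M => R.scont x η hη
  obtain ⟨y, hy0, hys, hyz⟩ := exists_common_zero
    (ι := Σ j : Fin D'.card, Fin (n (D'.equivFin.symm j).1))
    (fun t => b (D'.equivFin.symm t.1).1 t.2) s
  -- normalize
  have hpos := nrm_pos hy0
  let w : ℕ →₀ ℝ := (r / nrm y) • y
  have hw : nrm w = r := by
    rw [nrm_smul, abs_of_pos (by positivity)]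
    field_simp
  have hws : ∀ i < s, w i = 0 := by
    intro i hi
    simp [w, hys i hi]
  have hwD : ∀ x ∈ D', |R.s w x - R.s 0 x| < η := by
    intro x hx
    refine hs x w fun t => ?_
    obtain ⟨j, hj⟩ : ∃ j, D'.equivFin.symm j = ⟨x, hx⟩ := ⟨D'.equivFin ⟨x, hx⟩, by simp⟩
    have h0 : (y.sum fun i c => c * b x t i) = 0 := by
      have hj' : (D'.equivFin.symm j).1 = x := by rw [hj]
      subst hj'
      exact hyz ⟨j, t⟩
    have h1 : (w.sum fun i c => c * b x t i) = 0 := by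
      rw [Finsupp.sum_smul_index (fun i => by simp)]
      have : (fun i c => r / nrm y * c * b x t i) = fun i c => r / nrm y * (c * b x t i) := by
        ext i c; ring
      rw [this, ← Finsupp.mul_sum, h0, mul_zero]
    rw [h1, abs_zero]
    exact hδ x
  let p : R.UU r := R.sU w hw.le
  obtain ⟨A, η', hη', hA⟩ := R.contM (sgnTail s w) p (r / 4) (by positivity)
  -- glue
  let D₁ : Finset (StoneCech M) :=
    D.filter (fun z => z ∈ Set.range (stoneCechUnit : M → StoneCech M)) ∪ A.image stoneCechUnit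
  let D₂ : Finset (StoneCech M) :=
    D.filter (fun z => z ∉ Set.range (stoneCechUnit : M → StoneCech M))
  have hdis : Disjoint D₁ D₂ := by
    rw [Finset.disjoint_left]
    intro z hz1 hz2
    refine (Finset.mem_filter.mp hz2).2 ?_
    rcases Finset.mem_union.mp hz1 with h | h
    · exact (Finset.mem_filter.mp h).2
    · obtain ⟨x, -, rfl⟩ := Finset.mem_image.mp h
      exact ⟨x, rfl⟩
  obtain ⟨G, hG1, hG2⟩ := R.glueU p f D₁ D₂ hdis
  have hGD : ∀ z ∈ D, |S.ev G z - S.ev f z| < η := by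
    intro z hz
    change |ext G.1 z - ext f.1 z| < η
    by_cases hzM : z ∈ Set.range (stoneCechUnit : M → StoneCech M)
    · rw [hG1 z (Finset.mem_union.mpr (Or.inl (Finset.mem_filter.mpr ⟨hz, hzM⟩)))]
      obtain ⟨x, hx, rfl⟩ := hD' z hz hzM
      rw [ext_unit p.1 (mem_Icc p x), ext_unit f.1 (mem_Icc f x)]
      exact (abs_arctan_sub_le _ _).trans_lt (hwD x hx)
    · rw [hG2 z (Finset.mem_filter.mpr ⟨hz, hzM⟩)]
      simpa using hη
  have h1 := hD G hGD (sgnTail s w) (fun i hi => sgnTail_zero hi)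
  have h2 : |pr (sgnTail s w) (R.Ψ (R.tang G)) - pr (sgnTail s w) (R.Ψ (R.tang p))| ≤ r / 4 := by
    refine hA G fun x hx => ?_
    have : ext G.1 (stoneCechUnit x) = ext p.1 (stoneCechUnit x) :=
      hG1 _ (Finset.mem_union.mpr (Or.inr (Finset.mem_image_of_mem _ hx)))
    rw [ext_unit p.1 (mem_Icc p x), ext_unit G.1 (mem_Icc G x)] at this
    rw [this]
    simpa using hη'
  have h3 : S.ψ G = R.Ψ (R.tang G) := rfl
  have h4 : S.ψ f = R.Ψ (R.tang f) := rfl
  rw [h3, h4] at h1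
  have h5 : R.Ψ (R.tang f) = fun _ => 0 := by
    rw [R.tang_sU, R.inv]
    rfl
  have h6 : R.Ψ (R.tang p) = w := by
    rw [R.tang_sU, R.inv]
  have h7 : pr (sgnTail s w) (fun _ => 0) = 0 := by simp [pr]
  have h8 : pr (sgnTail s w) w = r := by
    have := pr_sgnTail s (summable_finsupp w)
    rw [Finset.sum_eq_zero (fun i hi => by rw [hws i (Finset.mem_range.mp hi), abs_zero]),
      zero_add] at this
    rw [← this]
    exact hw
  rw [h5, h7, sub_zero] at h1
  rw [h6, h8] at h2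
  rw [abs_le] at h1 h2
  linarith [h1.1, h1.2, h2.1, h2.2]

end Retr

end Pool.Agent.Helper87_CpFree
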