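import Pool.Agent.Helper87_CpFree.Free
import Pool.Agent.Helper87_CpFree.Apply

/-!
`C_p(M)` is not homeomorphic to a free space with its weak topology.
-/

namespace Pool.Agent.Helper87_CpFree

open Filter Topology

/-- Continuity for the pointwise topology. -/
theorem pointwise_cont {X : Type*} {P : (X → ℝ) → Prop} {φ : {f : X → ℝ // P f} → ℝ}
    (hφ : Continuous φ) (f0 : {f : X → ℝ // P f}) {ε : ℝ} (hε : 0 < ε) :
    ∃ (T : Finset X) (δ : ℝ), 0 < δ ∧ ∀ g : {f : X → ℝ // P f},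
      (∀ x ∈ T, |g.1 x - f0.1 x| < δ) → |φ g - φ f0| < ε := by
  have hopen : IsOpen (φ ⁻¹' Metric.ball (φ f0) ε) := Metric.isOpen_ball.preimage hφ
  obtain ⟨V, hV, hVU⟩ := isOpen_induced_iff.mp hopen
  have hf0 : f0.1 ∈ V := by
    have : f0 ∈ Subtype.val ⁻¹' V := by
      rw [hVU]
      exact Metric.mem_ball_self hε
    exact this
  obtain ⟨T, u, hu, hT⟩ := isOpen_pi_iff.mp hV f0.1 hf0
  obtain ⟨δ, hδ, hδ'⟩ := exists_common T (fun x δ => Metric.ball (f0.1 x) δ ⊆ u x)
    (fun x hx => by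
      obtain ⟨δ, hδ, h⟩ := Metric.isOpen_iff.mp (hu x hx).1 _ (hu x hx).2
      exact ⟨δ, hδ, h⟩)
    (fun x δ δ' h1 h2 => (Metric.ball_subset_ball h1).trans h2)
  refine ⟨T, δ, hδ, fun g hg => ?_⟩
  have hgV : g.1 ∈ V := hT fun x hx => hδ' x hx (by
    rw [Metric.mem_ball, Real.dist_eq]
    exact hg x hx)
  have : g ∈ Subtype.val ⁻¹' V := hgV
  rw [hVU] at this
  have h2 : φ g ∈ Metric.ball (φ f0) ε := this
  rwa [Metric.mem_ball, Real.dist_eq] at h2

variable {M N : Type*} [TopologicalSpace M] [MetricSpace N] {n0 : N}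

/-- A homeomorphism gives a retraction. -/
noncomputable def retrOfHomeo (S : Balls N n0)
    (h : {g : M → ℝ // Continuous g} ≃ₜ {Φ : LipF N n0 → ℝ // IsFree Φ}) : Retr M where
  Ψ G i := (h ⟨G, G.continuous⟩).1 (S.e i)
  s y := ⟨(h.symm ⟨S.sec y, S.isFree_sec y⟩).1, (h.symm ⟨S.sec y, S.isFree_sec y⟩).2⟩
  summ G := S.summ_free (h ⟨G, G.continuous⟩).2
  cont a F ε hε := by
    have hc : Continuous fun g : {g : M → ℝ // Continuous g} => (h g).1 (S.comb a) :=
      (continuous_apply (S.comb a)).comp (continuous_subtype_val.comp h.continuous)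
    obtain ⟨A, η, hη, hA⟩ := pointwise_cont hc ⟨F, F.continuous⟩ hε
    refine ⟨A, η, hη, fun G hG => ?_⟩
    rw [S.pr_free (h ⟨G, G.continuous⟩).2, S.pr_free (h ⟨F, F.continuous⟩).2]
    exact (hA ⟨G, G.continuous⟩ hG).le
  scont x ε hε := by
    have hc : Continuous fun Φ : {Φ : LipF N n0 → ℝ // IsFree Φ} => (h.symm Φ).1 x :=
      (continuous_apply x).comp (continuous_subtype_val.comp h.symm.continuous)
    obtain ⟨T, δ, hδ, hT⟩ := pointwise_cont hc ⟨S.sec 0, S.isFree_sec 0⟩ hε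
    choose B hB using fun f : LipF N n0 => S.coeff_bound f
    refine ⟨T.card, fun t i => ((T.equivFin.symm t).1.1 (S.x i) -
      (T.equivFin.symm t).1.1 (S.z i)) / S.r i, ∑ f ∈ T, |B f|, δ, hδ, fun t i => ?_,
      fun y hy => ?_⟩
    · refine (hB (T.equivFin.symm t).1 i).trans ((le_abs_self _).trans ?_)
      exact Finset.single_le_sum (f := fun f => |B f|) (fun f _ => abs_nonneg _)
        (T.equivFin.symm t).2
    · refine hT ⟨S.sec y, S.isFree_sec y⟩ fun f hf => ?_
      have h1 := hy (T.equivFin ⟨f, hf⟩)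
      simp only [Equiv.symm_apply_apply] at h1
      have h2 : S.sec 0 f = 0 := by simp [Balls.sec]
      change |S.sec y f - S.sec 0 f| < δ
      rw [h2, sub_zero]
      exact h1
  inv y := by
    ext i
    have h1 : (⟨(h.symm ⟨S.sec y, S.isFree_sec y⟩).1,
        (h.symm ⟨S.sec y, S.isFree_sec y⟩).2⟩ : {g : M → ℝ // Continuous g}) =
        h.symm ⟨S.sec y, S.isFree_sec y⟩ := rfl
    change (h (h.symm ⟨S.sec y, S.isFree_sec y⟩)).1 (S.e i) = y i
    rw [h.apply_symm_apply]
    exact S.sec_e y i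

/-- For every topological space `M` and every infinite metric space `N`, the space `C_p(M)` is
not homeomorphic to the Lipschitz-free space over `N` with its weak topology. -/
theorem not_homeo [Infinite N]
    (h : {g : M → ℝ // Continuous g} ≃ₜ {Φ : LipF N n0 → ℝ // IsFree Φ}) : False := by
  obtain ⟨S⟩ := nonempty_balls n0
  exact (retrOfHomeo S h).false_of_retr

end Pool.Agent.Helper87_CpFree
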