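import Pool.Agent.Helper87_CpFree.Geometry

/-!
The free space of an infinite metric space has `ℓ¹` as a complemented subspace.
-/

namespace Pool.Agent.Helper87_CpFree

open Filter Topology

/-- Lipschitz functions vanishing at the base point. -/
abbrev LipF (N : Type*) [MetricSpace N] (n0 : N) : Type _ :=
  {f : N → ℝ // f n0 = 0 ∧ ∃ K : NNReal, LipschitzWith K f}

/-- Elements of the free space. -/
def IsFree {N : Type*} [MetricSpace N] {n0 : N} (Φ : LipF N n0 → ℝ) : Prop :=
  ∀ ε : ℝ, 0 < ε → ∃ c : N →₀ ℝ, ∀ f : LipF N n0, ∀ K : NNReal, LipschitzWith K f.1 →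
    |Φ f - c.sum (fun x a => a * f.1 x)| ≤ ε * (K : ℝ)

/-- The bump function. -/
noncomputable def bmp {N : Type*} [MetricSpace N] (x : N) (r : ℝ) (u : N) : ℝ :=
  max (r - dist u x) 0

theorem bmp_sub_le {N : Type*} [MetricSpace N] (x : N) (r : ℝ) (u v : N) :
    |bmp x r u - bmp x r v| ≤ dist u v := by
  unfold bmp
  refine (abs_max_sub_max_le_abs _ _ _).trans ?_
  have : r - dist u x - (r - dist v x) = dist v x - dist u x := by ring
  rw [this, dist_comm u v]
  exact abs_dist_sub_le v u x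

theorem bmp_eq_zero {N : Type*} [MetricSpace N] {x : N} {r : ℝ} {u : N} (h : r ≤ dist u x) :
    bmp x r u = 0 := by
  unfold bmp
  exact max_eq_right (by linarith)

/-- truncation -/
noncomputable def trunc (n : ℕ) (a : BB) : BB := fun i => if i < n then a i else ⟨0, by norm_num⟩

theorem pr_trunc (n : ℕ) (a : BB) (y : ℕ → ℝ) :
    pr (trunc n a) y = ∑ i ∈ Finset.range n, (a i : ℝ) * y i := by
  unfold pr
  rw [tsum_eq_sum (s := Finset.range n)]
  · refine Finset.sum_congr rfl fun i hi => ?_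
    rw [Finset.mem_range] at hi
    simp [trunc, hi]
  · intro i hi
    rw [Finset.mem_range] at hi
    simp [trunc, hi]

/-- A bundled good sequence. -/
structure Balls (N : Type*) [MetricSpace N] (n0 : N) where
  x : ℕ → N
  z : ℕ → N
  r : ℕ → ℝ
  C : ℝ
  hr : ∀ i, 0 < r i
  hx : ∀ i j, i ≠ j → r i + r j ≤ dist (x i) (x j)
  h0 : ∀ i, r i ≤ dist (x i) n0
  hz : ∀ i j, r j ≤ dist (z i) (x j)
  hC : ∀ i, dist (x i) (z i) ≤ C * r i

theorem nonempty_balls {N : Type*} [MetricSpace N] [Infinite N] (n0 : N) :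
    Nonempty (Balls N n0) := by
  obtain ⟨x, z, r, C, h1, h2, h3, h4, h5⟩ := goodSeq n0
  exact ⟨⟨x, z, r, C, h1, h2, h3, h4, h5⟩⟩

namespace Balls

variable {N : Type*} [MetricSpace N] {n0 : N} (S : Balls N n0)

/-- the values of the bumps at `u` -/
noncomputable def bs (u : N) (i : ℕ) : ℝ := bmp (S.x i) (S.r i) u

theorem bs_support (u : N) : ∃ i0, ∀ i, i ≠ i0 → S.bs u i = 0 := by
  by_cases h : ∃ i, dist u (S.x i) < S.r i
  · obtain ⟨i0, hi0⟩ := h
    refine ⟨i0, fun i hi => bmp_eq_zero ?_⟩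
    by_contra hcon
    push Not at hcon
    have h1 := S.hx i i0 hi
    have h2 := dist_triangle_left (S.x i) (S.x i0) u
    linarith
  · push Not at h
    exact ⟨0, fun i _ => bmp_eq_zero (h i)⟩

/-- index of the ball of `u` -/
noncomputable def ix (u : N) : ℕ := (S.bs_support u).choose

theorem ix_spec (u : N) {i : ℕ} (hi : i ≠ S.ix u) : S.bs u i = 0 := (S.bs_support u).choose_spec i hi

theorem summ_bs (u : N) : Summable fun i => |S.bs u i| := by
  refine summable_of_ne_finset_zero (s := {S.ix u}) fun i hi => ?_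
  rw [S.ix_spec u (by simpa using hi), abs_zero]

theorem pr_bs (a : BB) (u : N) (s : Finset ℕ) (hs : S.ix u ∈ s) :
    pr a (S.bs u) = ∑ i ∈ s, (a i : ℝ) * S.bs u i := by
  unfold pr
  refine tsum_eq_sum fun i hi => ?_
  have : i ≠ S.ix u := fun h => hi (h ▸ hs)
  rw [S.ix_spec u this, mul_zero]

theorem comb_lip (a : BB) (u v : N) :
    |pr a (S.bs u) - pr a (S.bs v)| ≤ 2 * dist u v := by
  rw [S.pr_bs a u {S.ix u, S.ix v} (by simp), S.pr_bs a v {S.ix u, S.ix v} (by simp),
    ← Finset.sum_sub_distrib]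
  refine (Finset.abs_sum_le_sum_abs _ _).trans ?_
  calc ∑ i ∈ ({S.ix u, S.ix v} : Finset ℕ), |(a i : ℝ) * S.bs u i - (a i : ℝ) * S.bs v i|
      ≤ ∑ i ∈ ({S.ix u, S.ix v} : Finset ℕ), dist u v := by
        refine Finset.sum_le_sum fun i _ => ?_
        rw [← mul_sub, abs_mul]
        calc |(a i : ℝ)| * |S.bs u i - S.bs v i| ≤ 1 * dist u v := by
              gcongr
              · exact abs_coe_le _
              · exact bmp_sub_le _ _ _ _
          _ = dist u v := one_mul _
    _ = (({S.ix u, S.ix v} : Finset ℕ).card : ℝ) * dist u v := by simp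
    _ ≤ 2 * dist u v := by
        gcongr
        exact_mod_cast Finset.card_le_two

theorem bs_n0 (i : ℕ) : S.bs n0 i = 0 := bmp_eq_zero (by rw [dist_comm]; exact S.h0 i)

/-- `∑ aᵢ fᵢ` -/
noncomputable def comb (a : BB) : LipF N n0 :=
  ⟨fun u => pr a (S.bs u), by
    have : S.bs n0 = fun _ => 0 := funext S.bs_n0
    simp [pr, this], 2, by
    refine LipschitzWith.of_dist_le_mul fun u v => ?_
    rw [Real.dist_eq]
    exact_mod_cast S.comb_lip a u v⟩

theorem comb_apply (a : BB) (u : N) : (S.comb a).1 u = pr a (S.bs u) := rfl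

theorem comb_lipschitz (a : BB) : LipschitzWith 2 (S.comb a).1 := by
  refine LipschitzWith.of_dist_le_mul fun u v => ?_
  rw [Real.dist_eq]
  exact_mod_cast S.comb_lip a u v

/-- `fᵢ` -/
noncomputable def e (j : ℕ) : LipF N n0 := S.comb (coordB j)

theorem e_apply (j : ℕ) (u : N) : (S.e j).1 u = S.bs u j := pr_coordB j _

variable {Φ : LipF N n0 → ℝ} (hΦ : IsFree Φ)

include hΦ in
theorem lin (n : ℕ) (a : BB) :
    Φ (S.comb (trunc n a)) = ∑ i ∈ Finset.range n, (a i : ℝ) * Φ (S.e i) := by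
  have key : ∀ ε : ℝ, 0 < ε →
      |Φ (S.comb (trunc n a)) - ∑ i ∈ Finset.range n, (a i : ℝ) * Φ (S.e i)| ≤
        (2 + 2 * n) * ε := by
    intro ε hε
    obtain ⟨c, hc⟩ := hΦ ε hε
    have h1 := hc (S.comb (trunc n a)) 2 (S.comb_lipschitz _)
    have h2 : ∀ i, |Φ (S.e i) - c.sum (fun x a => a * (S.e i).1 x)| ≤ ε * 2 := fun i =>
      hc (S.e i) 2 (S.comb_lipschitz _)
    have h3 : c.sum (fun x b => b * (S.comb (trunc n a)).1 x) =
        ∑ i ∈ Finset.range n, (a i : ℝ) * c.sum (fun x b => b * (S.e i).1 x) := by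
      simp only [Finsupp.sum, Finset.mul_sum]
      rw [Finset.sum_comm]
      refine Finset.sum_congr rfl fun x _ => ?_
      rw [S.comb_apply, pr_trunc, Finset.mul_sum]
      refine Finset.sum_congr rfl fun i _ => ?_
      rw [S.e_apply]
      ring
    have h4 : |∑ i ∈ Finset.range n, (a i : ℝ) * c.sum (fun x b => b * (S.e i).1 x) -
        ∑ i ∈ Finset.range n, (a i : ℝ) * Φ (S.e i)| ≤ n * (ε * 2) := by
      rw [← Finset.sum_sub_distrib]
      refine (Finset.abs_sum_le_sum_abs _ _).trans ?_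
      calc ∑ i ∈ Finset.range n, |(a i : ℝ) * c.sum (fun x b => b * (S.e i).1 x) -
            (a i : ℝ) * Φ (S.e i)| ≤ ∑ i ∈ Finset.range n, ε * 2 := by
            refine Finset.sum_le_sum fun i _ => ?_
            rw [← mul_sub, abs_mul, abs_sub_comm]
            calc |(a i : ℝ)| * |Φ (S.e i) - c.sum (fun x b => b * (S.e i).1 x)|
                ≤ 1 * (ε * 2) := by
                  gcongr
                  · exact abs_coe_le _
                  · exact h2 i
              _ = ε * 2 := one_mul _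
        _ = n * (ε * 2) := by simp
    rw [h3] at h1
    have h5 := abs_sub_le (Φ (S.comb (trunc n a)))
      (∑ i ∈ Finset.range n, (a i : ℝ) * c.sum (fun x b => b * (S.e i).1 x))
      (∑ i ∈ Finset.range n, (a i : ℝ) * Φ (S.e i))
    have h6 : ((2 : NNReal) : ℝ) = 2 := rfl
    rw [h6] at h1
    linarith
  by_contra hne
  have hpos : 0 < |Φ (S.comb (trunc n a)) - ∑ i ∈ Finset.range n, (a i : ℝ) * Φ (S.e i)| :=
    abs_pos.mpr (sub_ne_zero.mpr hne)
  have := key (|Φ (S.comb (trunc n a)) - ∑ i ∈ Finset.range n, (a i : ℝ) * Φ (S.e i)| /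
    (2 * (2 + 2 * n))) (by positivity)
  have h7 : (2 + 2 * (n : ℝ)) *
      (|Φ (S.comb (trunc n a)) - ∑ i ∈ Finset.range n, (a i : ℝ) * Φ (S.e i)| /
      (2 * (2 + 2 * n))) =
      |Φ (S.comb (trunc n a)) - ∑ i ∈ Finset.range n, (a i : ℝ) * Φ (S.e i)| / 2 := by
    field_simp
  rw [h7] at this
  linarith

include hΦ in
theorem tendsto_trunc (a : BB) :
    Tendsto (fun n => Φ (S.comb (trunc n a))) atTop (𝓝 (Φ (S.comb a))) := by
  rw [Metric.tendsto_atTop]
  intro ε hε
  obtain ⟨c, hc⟩ := hΦ (ε / 5) (by positivity)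
  refine ⟨(c.support.sup S.ix) + 1, fun n hn => ?_⟩
  have h1 := hc (S.comb (trunc n a)) 2 (S.comb_lipschitz _)
  have h2 := hc (S.comb a) 2 (S.comb_lipschitz _)
  have h3 : c.sum (fun x b => b * (S.comb (trunc n a)).1 x) =
      c.sum (fun x b => b * (S.comb a).1 x) := by
    refine Finsupp.sum_congr fun x hx => ?_
    have : S.ix x < n := lt_of_le_of_lt (Finset.le_sup hx) (by omega)
    rw [S.comb_apply, S.comb_apply, pr_trunc, S.pr_bs a x (Finset.range n) (by simpa using this)]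
  rw [h3] at h1
  have h6 : ((2 : NNReal) : ℝ) = 2 := rfl
  rw [h6] at h1 h2
  rw [Real.dist_eq, abs_lt]
  rw [abs_le] at h1 h2
  constructor <;> linarith [h1.1, h1.2, h2.1, h2.2]

include hΦ in
theorem bounded_free : ∃ B : ℝ, ∀ a : BB, |Φ (S.comb a)| ≤ B := by
  obtain ⟨c, hc⟩ := hΦ 1 one_pos
  refine ⟨2 + ∑ x ∈ c.support, |c x| * (2 * dist x n0), fun a => ?_⟩
  have h1 := hc (S.comb a) 2 (S.comb_lipschitz _)
  have h2 : |c.sum (fun x b => b * (S.comb a).1 x)| ≤
      ∑ x ∈ c.support, |c x| * (2 * dist x n0) := by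
    rw [Finsupp.sum]
    refine (Finset.abs_sum_le_sum_abs _ _).trans (Finset.sum_le_sum fun x _ => ?_)
    rw [abs_mul]
    gcongr
    have h3 := S.comb_lip a x n0
    have h4 : pr a (S.bs n0) = 0 := (S.comb a).2.1
    rw [h4, sub_zero] at h3
    exact h3
  have h6 : ((2 : NNReal) : ℝ) = 2 := rfl
  rw [h6] at h1
  rw [abs_le] at h1 h2 ⊢
  constructor <;> linarith [h1.1, h1.2, h2.1, h2.2]

include hΦ in
theorem summ_free : Summable fun i => |Φ (S.e i)| := by
  obtain ⟨B, hB⟩ := S.bounded_free hΦ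
  refine summable_of_sum_range_le (c := B) (fun i => abs_nonneg _) fun n => ?_
  have h1 := S.lin hΦ n (sgnTail 0 fun i => Φ (S.e i))
  have h2 : ∑ i ∈ Finset.range n, (sgnTail 0 (fun i => Φ (S.e i)) i : ℝ) * Φ (S.e i) =
      ∑ i ∈ Finset.range n, |Φ (S.e i)| :=
    Finset.sum_congr rfl fun i _ => sgnTail_mul (y := fun i => Φ (S.e i)) (Nat.zero_le i)
  rw [← h2, ← h1]
  exact (le_abs_self _).trans (hB _)

include hΦ in
theorem pr_free (a : BB) : pr a (fun i => Φ (S.e i)) = Φ (S.comb a) := by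
  have h1 := (summable_pr a (S.summ_free hΦ)).hasSum.tendsto_sum_nat
  have h2 := S.tendsto_trunc hΦ a
  have h3 : (fun n => Φ (S.comb (trunc n a))) =
      fun n => ∑ i ∈ Finset.range n, (a i : ℝ) * Φ (S.e i) := by
    ext n
    exact S.lin hΦ n a
  rw [h3] at h2
  exact tendsto_nhds_unique h1 h2

/-- The section. -/
noncomputable def sec (y : ℕ →₀ ℝ) (f : LipF N n0) : ℝ :=
  y.sum fun i c => c * ((f.1 (S.x i) - f.1 (S.z i)) / S.r i)

theorem isFree_sec (y : ℕ →₀ ℝ) : IsFree (S.sec y) := by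
  intro ε hε
  refine ⟨y.sum fun i c => Finsupp.single (S.x i) (c / S.r i) - Finsupp.single (S.z i) (c / S.r i),
    fun f K _ => ?_⟩
  have h1 : (y.sum fun i c => Finsupp.single (S.x i) (c / S.r i) -
      Finsupp.single (S.z i) (c / S.r i)).sum (fun x a => a * f.1 x) = S.sec y f := by
    have h2 : ∀ c : N →₀ ℝ, c.sum (fun x a => a * f.1 x) = Finsupp.linearCombination ℝ f.1 c := by
      intro c
      rw [Finsupp.linearCombination_apply]
      rfl
    rw [h2, Finsupp.sum, map_sum, sec, Finsupp.sum]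
    refine Finset.sum_congr rfl fun i _ => ?_
    rw [map_sub, Finsupp.linearCombination_single, Finsupp.linearCombination_single]
    simp only [smul_eq_mul]
    ring
  rw [h1, sub_self, abs_zero]
  positivity

theorem sec_e (y : ℕ →₀ ℝ) (j : ℕ) : S.sec y (S.e j) = y j := by
  unfold sec
  have h1 : ∀ i, ((S.e j).1 (S.x i) - (S.e j).1 (S.z i)) / S.r i = if i = j then 1 else 0 := by
    intro i
    rw [S.e_apply, S.e_apply]
    have hz : S.bs (S.z i) j = 0 := bmp_eq_zero (S.hz i j)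
    rw [hz, sub_zero]
    split_ifs with h
    · subst h
      have : S.bs (S.x i) i = S.r i := by
        unfold bs bmp
        rw [dist_self, sub_zero]
        exact max_eq_left (S.hr i).le
      rw [this]
      exact div_self (S.hr i).ne'
    · have : S.bs (S.x i) j = 0 := bmp_eq_zero (by
        have := S.hx i j h
        have := S.hr i
        linarith)
      rw [this, zero_div]
  simp only [h1]
  rw [Finsupp.sum]
  simp only [mul_ite, mul_one, mul_zero, Finset.sum_ite_eq', Finsupp.mem_support_iff, ne_eq,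
    ite_not]
  split_ifs with h
  · exact h.symm
  · rfl

theorem coeff_bound (f : LipF N n0) : ∃ B : ℝ, ∀ i, |(f.1 (S.x i) - f.1 (S.z i)) / S.r i| ≤ B := by
  obtain ⟨K, hK⟩ := f.2.2
  refine ⟨K * S.C, fun i => ?_⟩
  have h1 := hK.dist_le_mul (S.x i) (S.z i)
  rw [Real.dist_eq] at h1
  rw [abs_div, abs_of_pos (S.hr i), div_le_iff₀ (S.hr i), mul_assoc]
  exact h1.trans (by gcongr; exact S.hC i)

end Balls

end Pool.Agent.Helper87_CpFree
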