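import Pool.Agent.Helper87_CpFree.UnifBdd

/-!
Sequences of disjoint balls in infinite metric spaces.
-/

namespace Pool.Agent.Helper87_CpFree

open Filter Topology

/-- Disjoint balls `B(x i, r i)` avoiding the base point and the points `z j`, where `z i` is not
much further from `x i` than `r i`. -/
def GoodSeq (N : Type*) [MetricSpace N] (n0 : N) : Prop :=
  ∃ (x z : ℕ → N) (r : ℕ → ℝ) (C : ℝ), (∀ i, 0 < r i) ∧
    (∀ i j, i ≠ j → r i + r j ≤ dist (x i) (x j)) ∧ (∀ i, r i ≤ dist (x i) n0) ∧
    (∀ i j, r j ≤ dist (z i) (x j)) ∧ (∀ i, dist (x i) (z i) ≤ C * r i)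

/-- The same without the condition on the base point. -/
def PreSeq (N : Type*) [MetricSpace N] : Prop :=
  ∃ (x z : ℕ → N) (r : ℕ → ℝ) (C : ℝ), (∀ i, 0 < r i) ∧
    (∀ i j, i < j → r i + r j ≤ dist (x i) (x j)) ∧
    (∀ i j, r j ≤ dist (z i) (x j)) ∧ (∀ i, dist (x i) (z i) ≤ C * r i)

theorem PreSeq.good {N : Type*} [MetricSpace N] (h : PreSeq N) (n0 : N) : GoodSeq N n0 := by
  obtain ⟨x, z, r, C, hr, h1, h2, h3⟩ := h
  have h1' : ∀ i j, i ≠ j → r i + r j ≤ dist (x i) (x j) := by
    intro i j hij
    rcases lt_or_gt_of_ne hij with h | h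
    · exact h1 i j h
    · rw [dist_comm, add_comm]
      exact h1 j i h
  obtain ⟨i0, hi0⟩ : ∃ i0, ∀ i, i0 ≤ i → r i ≤ dist (x i) n0 := by
    by_cases h : ∃ i, dist (x i) n0 < r i
    · obtain ⟨i, hi⟩ := h
      refine ⟨i + 1, fun j hj => ?_⟩
      by_contra hcon
      push Not at hcon
      have := h1' i j (by omega)
      have h4 := dist_triangle_right (x i) (x j) n0
      linarith
    · push Not at h
      exact ⟨0, fun i _ => h i⟩
  refine ⟨fun i => x (i0 + i), fun i => z (i0 + i), fun i => r (i0 + i), C, fun i => hr _,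
    fun i j hij => h1' _ _ (by omega), fun i => hi0 _ (by omega), fun i j => h2 _ _, fun i => h3 _⟩

theorem preSeq_of_unbounded {N : Type*} [MetricSpace N] (z : N)
    (h : ∀ R : ℝ, ∃ x, R < dist x z) : PreSeq N := by
  obtain ⟨x, hx1, hx2⟩ := exists_seq_of_forall_finset_exists (fun x : N => 1 ≤ dist x z)
    (fun x y => 4 * dist x z ≤ dist y z) (by
      intro s _
      obtain ⟨y, hy⟩ := h (1 + ∑ x ∈ s, 4 * dist x z)
      have h0 : ∀ x ∈ s, 0 ≤ 4 * dist x z := fun x _ => by positivity
      refine ⟨y, ?_, fun x hx => ?_⟩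
      · have := Finset.sum_nonneg h0
        linarith
      · have := Finset.single_le_sum h0 hx
        linarith)
  refine ⟨x, fun _ => z, fun i => dist (x i) z / 2, 2, fun i => by linarith [hx1 i], ?_, ?_, ?_⟩
  · intro i j hij
    have h1 := hx2 i j hij
    have h2 := dist_triangle (x j) (x i) z
    rw [dist_comm (x j) (x i)] at h2
    have h3 := hx1 i
    linarith
  · intro i j
    rw [dist_comm z]
    linarith [hx1 j]
  · intro i
    linarith

theorem preSeq_of_separated {N : Type*} [MetricSpace N] (z : N) {R : ℝ}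
    (h : ∀ x, dist x z ≤ R) (hN : ¬ TotallyBounded (Set.univ : Set N)) : PreSeq N := by
  rw [Metric.totallyBounded_iff] at hN
  push Not at hN
  obtain ⟨ε, hε, hN⟩ := hN
  obtain ⟨x, -, hx⟩ := exists_seq_of_forall_finset_exists (fun _ : N => True)
    (fun x y => ε ≤ dist x y) (by
      intro s _
      have := hN (s : Set N) s.finite_toSet
      rw [Set.not_subset] at this
      obtain ⟨y, -, hy⟩ := this
      refine ⟨y, trivial, fun x hx => ?_⟩
      simp only [Set.mem_iUnion, not_exists] at hy
      have := hy x hx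
      rw [Metric.mem_ball, not_lt, dist_comm] at this
      exact this)
  refine ⟨fun i => x (i + 1), fun _ => x 0, fun _ => ε / 2, 2 * R / (ε / 2), fun _ => by linarith,
    fun i j hij => ?_, fun i j => ?_, fun i => ?_⟩
  · have := hx (i + 1) (j + 1) (by omega)
    linarith
  · have := hx 0 (j + 1) (by omega)
    linarith
  · have h1 := h (x (i + 1))
    have h2 := h (x 0)
    have h3 := dist_triangle_right (x (i + 1)) (x 0) z
    rw [div_mul_cancel₀ _ (ne_of_gt (half_pos hε))]
    linarith

theorem preSeq_of_totallyBounded {N : Type*} [MetricSpace N] [Infinite N]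
    (hN : TotallyBounded (Set.univ : Set N)) : PreSeq N := by
  let c : N → UniformSpace.Completion N := fun x => (x : UniformSpace.Completion N)
  have hc : ∀ x y, dist (c x) (c y) = dist x y := UniformSpace.Completion.dist_eq
  have hinj : Function.Injective c := UniformSpace.Completion.coe_isometry.injective
  have htb : TotallyBounded (Set.univ : Set (UniformSpace.Completion N)) := by
    have h1 : TotallyBounded (c '' Set.univ) :=
      hN.image UniformSpace.Completion.coe_isometry.uniformContinuous
    have h2 := h1.closure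
    rw [Set.image_univ] at h2
    have h3 : closure (Set.range c) = Set.univ :=
      (UniformSpace.Completion.denseRange_coe).closure_range
    rwa [h3] at h2
  have hcomp : IsCompact (Set.univ : Set (UniformSpace.Completion N)) :=
    isCompact_iff_totallyBounded_isComplete.mpr ⟨htb, isClosed_univ.isComplete⟩
  obtain ⟨p, -, hp⟩ := (Set.infinite_range_of_injective hinj).exists_accPt_of_subset_isCompact
    hcomp (Set.subset_univ _)
  rw [accPt_iff_nhds] at hp
  have hp' : ∀ ε > 0, ∃ w : N, 0 < dist (c w) p ∧ dist (c w) p < ε := by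
    intro ε hε
    obtain ⟨y, ⟨hy1, w, rfl⟩, hy3⟩ := hp _ (Metric.ball_mem_nhds p hε)
    exact ⟨w, dist_pos.mpr hy3, hy1⟩
  obtain ⟨w, hw1, hw2⟩ := exists_seq_of_forall_finset_exists (fun w : N => 0 < dist (c w) p)
    (fun x y => 8 * dist (c y) p ≤ dist (c x) p) (by
      intro s hs
      obtain ⟨η, hη, hη'⟩ := exists_common s (fun x η => 8 * η ≤ dist (c x) p)
        (fun x hx => ⟨dist (c x) p / 8, by have := hs x hx; positivity, by linarith⟩)
        (fun x η η' h1 h2 => by linarith)
      obtain ⟨y, hy1, hy2⟩ := hp' η hη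
      exact ⟨y, hy1, fun x hx => by linarith [hη' x hx]⟩)
  refine ⟨fun i => w (2 * i), fun i => w (2 * i + 1), fun i => dist (c (w (2 * i))) p / 2, 4,
    fun i => by linarith [hw1 (2 * i)], fun i j hij => ?_, fun i j => ?_, fun i => ?_⟩
  · have h1 := hw2 (2 * i) (2 * j) (by omega)
    have h2 := dist_triangle (c (w (2 * i))) (c (w (2 * j))) p
    have h3 := hw1 (2 * j)
    rw [hc] at h2
    linarith
  · have h3 := hw1 (2 * j)
    have h4 := hw1 (2 * i + 1)
    rcases lt_or_ge (2 * j) (2 * i + 1) with h | h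
    · have h1 := hw2 (2 * j) (2 * i + 1) h
      have h2 := dist_triangle (c (w (2 * j))) (c (w (2 * i + 1))) p
      rw [hc, dist_comm (w (2 * j))] at h2
      linarith
    · have h1 := hw2 (2 * i + 1) (2 * j) (by omega)
      have h2 := dist_triangle (c (w (2 * i + 1))) (c (w (2 * j))) p
      rw [hc] at h2
      linarith
  · have h1 := hw2 (2 * i) (2 * i + 1) (by omega)
    have h2 := dist_triangle_right (c (w (2 * i))) (c (w (2 * i + 1))) p
    have h3 := hw1 (2 * i + 1)
    rw [hc] at h2
    linarith

theorem goodSeq {N : Type*} [MetricSpace N] [Infinite N] (n0 : N) : GoodSeq N n0 := by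
  by_cases h : ∀ R : ℝ, ∃ x, R < dist x n0
  · exact (preSeq_of_unbounded n0 h).good n0
  · push Not at h
    obtain ⟨R, hR⟩ := h
    by_cases hN : TotallyBounded (Set.univ : Set N)
    · exact (preSeq_of_totallyBounded hN).good n0
    · exact (preSeq_of_separated n0 hR hN).good n0

end Pool.Agent.Helper87_CpFree
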