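import Pool.Agent.Helper87_CpFree.Abstract

/-!
The abstract finite support theorem: the proof.
-/

namespace Pool.Agent.Helper87_CpFree

open Filter Topology

/-- Cesàro means in `BB`. -/
noncomputable def mean (a : ℕ → BB) (k : ℕ) : BB := fun i =>
  ⟨(k : ℝ)⁻¹ * ∑ j ∈ Finset.range k, (a j i : ℝ), by
    have h : |(k : ℝ)⁻¹ * ∑ j ∈ Finset.range k, (a j i : ℝ)| ≤ 1 := by
      rw [abs_mul, abs_inv, Nat.abs_cast]
      have h1 : |∑ j ∈ Finset.range k, (a j i : ℝ)| ≤ k := by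
        refine (Finset.abs_sum_le_sum_abs _ _).trans ?_
        calc ∑ j ∈ Finset.range k, |(a j i : ℝ)| ≤ ∑ j ∈ Finset.range k, (1 : ℝ) :=
              Finset.sum_le_sum fun j _ => abs_coe_le _
          _ = k := by simp
      rcases Nat.eq_zero_or_pos k with rfl | hk
      · simp
      · have hk' : (0 : ℝ) < k := by exact_mod_cast hk
        rw [inv_mul_le_iff₀ hk', mul_one]
        exact h1
    exact abs_le.mp h⟩

theorem coe_mean (a : ℕ → BB) (k i : ℕ) :
    (mean a k i : ℝ) = (k : ℝ)⁻¹ * ∑ j ∈ Finset.range k, (a j i : ℝ) := rfl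

theorem tendsto_mean {a : ℕ → BB} {c : BB} (h : Tendsto a atTop (𝓝 c)) :
    Tendsto (mean a) atTop (𝓝 c) := by
  rw [tendsto_pi_nhds] at h ⊢
  intro i
  rw [tendsto_subtype_rng]
  have h1 : Tendsto (fun j => (a j i : ℝ)) atTop (𝓝 (c i : ℝ)) :=
    (continuous_subtype_val.tendsto _).comp (h i)
  exact h1.cesaro

theorem pr_mean (a : ℕ → BB) (k : ℕ) {y : ℕ → ℝ} (hy : Summable fun i => |y i|) :
    pr (mean a k) y = (k : ℝ)⁻¹ * ∑ j ∈ Finset.range k, pr (a j) y := by
  unfold pr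
  rw [← Summable.tsum_finsetSum (fun j _ => summable_pr (a j) hy), ← tsum_mul_left]
  congr 1
  ext i
  rw [coe_mean, mul_assoc, Finset.sum_mul]

namespace Setup

variable {U K : Type*} [TopologicalSpace K] (S : Setup U K)

theorem finite_supports (f : U) {c : BB} {l : ℕ} {η κ₃ κ' : ℝ} (hη : 0 < η) (hκ : κ₃ < κ')
    (hno : ∀ B : Finset K, B.card < l → ¬ S.Supp f c B η κ') :
    {D : Finset K | D.card ≤ l ∧ S.Supp f c D η κ₃}.Finite := by
  classical
  refine finite_family l _ (fun D hD => hD.1) fun B hB => ?_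
  have h0 := hno B hB
  unfold Supp at h0
  push Not at h0
  obtain ⟨q, hq, hqc⟩ := h0
  obtain ⟨A, η', hη', hA⟩ := S.cont c q ((κ' - κ₃) / 2) (by linarith)
  refine ⟨A, fun D hD hBD => ?_⟩
  by_contra hcon
  push Not at hcon
  obtain ⟨g, hg1, hg2⟩ := S.glue q f (A ∪ B) (D \ (A ∪ B)) Finset.disjoint_sdiff
  have h1 : |pr c (S.ψ g) - pr c (S.ψ f)| ≤ κ₃ := by
    refine hD.2 g fun x hx => ?_
    by_cases hxB : x ∈ B
    · rw [hg1 x (by simp [hxB])]
      exact hq x hxB
    · have hxA : x ∉ A := fun hxA => hxB (hcon x hx hxA)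
      rw [hg2 x (by simp [hx, hxA, hxB])]
      simpa using hη
  have h2 : |pr c (S.ψ g) - pr c (S.ψ q)| ≤ (κ' - κ₃) / 2 := by
    refine hA g fun x hx => ?_
    rw [hg1 x (by simp [hx])]
    simpa using hη'
  have h3 : |pr c (S.ψ q) - pr c (S.ψ f)| ≤
      |pr c (S.ψ g) - pr c (S.ψ f)| + |pr c (S.ψ g) - pr c (S.ψ q)| := by
    have := abs_sub_le (pr c (S.ψ q)) (pr c (S.ψ g)) (pr c (S.ψ f))
    rw [abs_sub_comm (pr c (S.ψ q)) (pr c (S.ψ g))] at this
    linarith
  linarith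

theorem caseTwo [CompactSpace K] [Nonempty K] (f : U) {c : BB} {l : ℕ} {η κ₃ κ' : ℝ}
    (hη : 0 < η) (hκ : κ₃ < κ')
    (hno : ∀ B : Finset K, B.card < l → ¬ S.Supp f c B η κ')
    (a : ℕ → BB) (ha : Tendsto a atTop (𝓝 c)) (A : ℕ → Finset K) (hA : ∀ j, (A j).card ≤ l)
    (hsupp : ∀ j, S.Supp f (a j) (A j) η κ₃) (hfib : ∀ D, {j | A j = D}.Finite) : False := by
  classical
  obtain ⟨D₀, hD₀, φ, hφ, hsub, hdisj⟩ := delta_system l A hA hfib
  have h0 := hno D₀ hD₀
  unfold Supp at h0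
  push Not at h0
  obtain ⟨q, hq, hqc⟩ := h0
  obtain ⟨L, hL⟩ := S.uniform_supp q (δ := (κ' - κ₃) / 2) (by linarith)
  have hκ₃ : 0 ≤ κ₃ := by
    have := hsupp 0 f (fun x _ => by simpa using hη)
    simpa using this
  have hC : 0 ≤ S.C := (tsum_nonneg fun i => abs_nonneg _).trans (S.bdd f)
  let b : ℕ → BB := fun j => a (φ j)
  have hb : Tendsto b atTop (𝓝 c) := ha.comp hφ.tendsto_atTop
  -- the key estimate
  have key : ∀ k : ℕ, 0 < k → |pr (mean b k) (S.ψ q) - pr (mean b k) (S.ψ f)| ≤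
      κ₃ + (k : ℝ)⁻¹ * (L * (2 * S.C)) + (κ' - κ₃) / 2 := by
    intro k hk
    have hk' : (0 : ℝ) < k := by exact_mod_cast hk
    obtain ⟨Ck, hCk, hCk'⟩ := hL (mean b k)
    let G : Finset ℕ := (Finset.range k).filter fun j => Disjoint (A (φ j) \ D₀) Ck
    let E : Finset K := G.biUnion fun j => A (φ j) \ D₀
    have hdis : Disjoint (Ck ∪ D₀) E := by
      rw [Finset.disjoint_biUnion_right]
      intro j hj
      rw [Finset.disjoint_union_left]
      refine ⟨(Finset.mem_filter.mp hj).2.symm, Finset.disjoint_sdiff⟩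
    obtain ⟨g, hg1, hg2⟩ := S.glue q f (Ck ∪ D₀) E hdis
    have h1 : |pr (mean b k) (S.ψ g) - pr (mean b k) (S.ψ q)| ≤ (κ' - κ₃) / 2 :=
      hCk' g fun x hx => hg1 x (by simp [hx])
    -- good indices
    have hgood : ∀ j ∈ G, |pr (b j) (S.ψ g) - pr (b j) (S.ψ f)| ≤ κ₃ := by
      intro j hj
      refine hsupp (φ j) g fun x hx => ?_
      by_cases hx0 : x ∈ D₀
      · rw [hg1 x (by simp [hx0])]
        exact hq x hx0
      · rw [hg2 x (Finset.mem_biUnion.mpr ⟨j, hj, by simp [hx, hx0]⟩)]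
        simpa using hη
    -- all indices
    have hall : ∀ j, |pr (b j) (S.ψ g) - pr (b j) (S.ψ f)| ≤ 2 * S.C := by
      intro j
      have h1 := (abs_pr_le (b j) (S.summ g)).trans (S.bdd g)
      have h2 := (abs_pr_le (b j) (S.summ f)).trans (S.bdd f)
      calc |pr (b j) (S.ψ g) - pr (b j) (S.ψ f)| ≤ |pr (b j) (S.ψ g)| + |pr (b j) (S.ψ f)| :=
            abs_sub _ _
        _ ≤ 2 * S.C := by linarith
    -- few bad indices
    let Bd : Finset ℕ := (Finset.range k).filter fun j => ¬ Disjoint (A (φ j) \ D₀) Ck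
    have hbad : Bd.card ≤ L := by
      refine le_trans ?_ hCk
      have hex : ∀ j ∈ Bd, ∃ x ∈ Ck, x ∈ A (φ j) \ D₀ := by
        intro j hj
        have := (Finset.mem_filter.mp hj).2
        rw [Finset.not_disjoint_iff] at this
        obtain ⟨x, hx1, hx2⟩ := this
        exact ⟨x, hx2, hx1⟩
      choose! p hp1 hp2 using hex
      refine Finset.card_le_card_of_injOn p (fun j hj => hp1 j hj) ?_
      intro i hi j hj hij
      by_contra hne
      rcases lt_or_gt_of_ne hne with h | h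
      · have := Finset.disjoint_left.mp (hdisj i j h) (hp2 i hi)
        rw [hij] at this
        exact this (hp2 j hj)
      · have := Finset.disjoint_left.mp (hdisj j i h) (hp2 j hj)
        rw [← hij] at this
        exact this (hp2 i hi)
    have h2 : |pr (mean b k) (S.ψ g) - pr (mean b k) (S.ψ f)| ≤
        κ₃ + (k : ℝ)⁻¹ * (L * (2 * S.C)) := by
      rw [pr_mean b k (S.summ g), pr_mean b k (S.summ f), ← mul_sub, ← Finset.sum_sub_distrib,
        abs_mul, abs_inv, Nat.abs_cast]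
      have hsum : |∑ j ∈ Finset.range k, (pr (b j) (S.ψ g) - pr (b j) (S.ψ f))| ≤
          k * κ₃ + L * (2 * S.C) := by
        refine (Finset.abs_sum_le_sum_abs _ _).trans ?_
        rw [← Finset.sum_filter_add_sum_filter_not (Finset.range k)
          (fun j => Disjoint (A (φ j) \ D₀) Ck)]
        refine add_le_add ?_ ?_
        · calc ∑ j ∈ G, |pr (b j) (S.ψ g) - pr (b j) (S.ψ f)| ≤ ∑ j ∈ G, κ₃ :=
                Finset.sum_le_sum hgood
            _ = G.card * κ₃ := by simp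
            _ ≤ k * κ₃ := by
                gcongr
                exact (Finset.card_filter_le _ _).trans (by simp)
        · calc ∑ j ∈ Bd, |pr (b j) (S.ψ g) - pr (b j) (S.ψ f)| ≤ ∑ j ∈ Bd, 2 * S.C :=
                Finset.sum_le_sum fun j _ => hall j
            _ = Bd.card * (2 * S.C) := by simp
            _ ≤ L * (2 * S.C) := by gcongr
      calc (k : ℝ)⁻¹ * |∑ j ∈ Finset.range k, (pr (b j) (S.ψ g) - pr (b j) (S.ψ f))|
          ≤ (k : ℝ)⁻¹ * (k * κ₃ + L * (2 * S.C)) := by gcongr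
        _ = κ₃ + (k : ℝ)⁻¹ * (L * (2 * S.C)) := by field_simp
    have := abs_sub_le (pr (mean b k) (S.ψ q)) (pr (mean b k) (S.ψ g)) (pr (mean b k) (S.ψ f))
    rw [abs_sub_comm (pr (mean b k) (S.ψ q)) (pr (mean b k) (S.ψ g))] at this
    linarith
  -- pass to the limit
  have hlim1 : Tendsto (fun k => |pr (mean b k) (S.ψ q) - pr (mean b k) (S.ψ f)|) atTop
      (𝓝 |pr c (S.ψ q) - pr c (S.ψ f)|) :=
    ((((continuous_pr (S.summ q)).tendsto c).comp (tendsto_mean hb)).sub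
      (((continuous_pr (S.summ f)).tendsto c).comp (tendsto_mean hb))).abs
  have hlim2 : Tendsto (fun k : ℕ => κ₃ + (k : ℝ)⁻¹ * (L * (2 * S.C)) + (κ' - κ₃) / 2) atTop
      (𝓝 (κ₃ + 0 * (L * (2 * S.C)) + (κ' - κ₃) / 2)) :=
    (((tendsto_natCast_atTop_atTop.inv_tendsto_atTop).mul_const _).const_add _).add_const _
  have := le_of_tendsto_of_tendsto hlim1 hlim2
    ((eventually_gt_atTop 0).mono fun k hk => key k hk)
  linarith

/-- **The finite support theorem.** -/
theorem good [CompactSpace K] [Nonempty K] (f : U) {κ : ℝ} (hκ : 0 < κ) :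
    ∃ (D : Finset K) (η : ℝ) (s : ℕ), 0 < η ∧ ∀ g, (∀ x ∈ D, |S.ev g x - S.ev f x| < η) →
      ∀ a : BB, (∀ i < s, (a i : ℝ) = 0) → |pr a (S.ψ g) - pr a (S.ψ f)| ≤ κ := by
  classical
  by_contra hbad
  -- the set of sizes
  let P : ℕ → Prop := fun l => ∃ (κ' η : ℝ) (W : Set BB), κ / 2 ≤ κ' ∧ κ' < κ ∧ 0 < η ∧ IsOpen W ∧
    W.Nonempty ∧ ∀ a ∈ W, ∃ D : Finset K, D.card ≤ l ∧ S.Supp f a D η κ'
  have hP : ∃ l, P l := by
    obtain ⟨l, η, W, hη, hWo, hWne, -, hW⟩ :=
      S.exists_open_supp f (half_pos hκ) isOpen_univ ⟨coordB 0, trivial⟩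
    exact ⟨l, κ / 2, η, W, le_rfl, by linarith, hη, hWo, hWne, hW⟩
  let l := Nat.find hP
  obtain ⟨κ₃, η, W, hκ1, hκ2, hη, hWo, hWne, hW⟩ : P l := Nat.find_spec hP
  have hmin : ∀ m < l, ¬ P m := fun m hm => Nat.find_min hP hm
  let κ' := (κ₃ + κ) / 2
  have hκ'1 : κ₃ < κ' := by simp only [κ']; linarith
  have hκ'2 : κ' < κ := by simp only [κ']; linarith
  -- a point of `W` without small supports
  obtain ⟨c, hcW, hno⟩ : ∃ c ∈ W, ∀ B : Finset K, B.card < l → ∀ η' > 0, ¬ S.Supp f c B η' κ' := by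
    by_contra hcon
    push Not at hcon
    have hl : 0 < l := by
      obtain ⟨c, hc⟩ := hWne
      obtain ⟨B, hB, -⟩ := hcon c hc
      omega
    let F : ℕ → Set BB := fun n =>
      {a | ∃ D : Finset K, D.card ≤ l - 1 ∧ S.Supp f a D (1 / ((n : ℝ) + 1)) κ'}
    have hF : ∀ n, IsClosed (F n) := fun n => S.isClosed_suppCard f _ _ κ'
    have hcov : W ⊆ ⋃ n, F n := by
      intro a ha
      obtain ⟨B, hB, η', hη', hB'⟩ := hcon a ha
      obtain ⟨n, hn⟩ := exists_nat_one_div_lt hη'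
      refine Set.mem_iUnion.mpr ⟨n, B, by omega, ?_⟩
      exact hB'.mono subset_rfl hn.le le_rfl
    obtain ⟨n, hn⟩ := baire_cover hWo hWne F hF hcov
    refine hmin (l - 1) (by omega) ⟨κ', 1 / ((n : ℝ) + 1), interior (F n) ∩ W, by linarith,
      hκ'2, by positivity, isOpen_interior.inter hWo, hn, ?_⟩
    intro a ha
    have h3 : a ∈ F n := interior_subset ha.1
    exact h3
  have hfin := S.finite_supports f hη hκ'1 (fun B hB => hno B hB η hη)
  set 𝒟 : Set (Finset K) := {D : Finset K | D.card ≤ l ∧ S.Supp f c D η κ₃} with h𝒟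
  let V : Finset K → Set BB := fun D => {a | S.Supp f a D η κ₃}
  have hV : ∀ D, IsClosed (V D) := fun D => S.isClosed_supp f D η κ₃
  have hUc : IsClosed (⋃ D ∈ 𝒟, V D) := hfin.isClosed_biUnion fun D _ => hV D
  by_cases hcase : c ∈ interior (⋃ D ∈ 𝒟, V D)
  · -- Case 1
    have hcl : ∃ D, (interior (V D)).Nonempty := by
      have h𝒟ne : 𝒟.Nonempty := by
        obtain ⟨D, hD, -⟩ := Set.mem_iUnion₂.mp (interior_subset hcase)
        exact ⟨D, hD⟩
      obtain ⟨e, he⟩ := hfin.countable.exists_eq_range h𝒟ne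
      obtain ⟨n, hn⟩ := baire_cover isOpen_interior ⟨c, hcase⟩ (fun n => V (e n))
        (fun n => hV _) (by
          intro a ha
          obtain ⟨D, hD, haD⟩ := Set.mem_iUnion₂.mp (interior_subset ha)
          rw [he] at hD
          obtain ⟨n, rfl⟩ := hD
          exact Set.mem_iUnion.mpr ⟨n, haD⟩)
      exact ⟨e n, hn.mono Set.inter_subset_left⟩
    obtain ⟨D, hD⟩ := hcl
    exact hbad (S.good_of_open f hκ2.le hη isOpen_interior hD fun a ha => interior_subset ha)
  · -- Case 2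
    have hcl : c ∈ closure (W \ ⋃ D ∈ 𝒟, V D) := by
      rw [mem_closure_iff]
      intro O hO hcO
      by_contra hcon
      rw [Set.not_nonempty_iff_eq_empty] at hcon
      refine hcase (mem_interior.mpr ⟨O ∩ W, ?_, hO.inter hWo, hcO, hcW⟩)
      intro a ha
      by_contra haU
      have : a ∈ O ∩ (W \ ⋃ D ∈ 𝒟, V D) := ⟨ha.1, ha.2, haU⟩
      rw [hcon] at this
      exact this
    obtain ⟨a, ha1, ha2⟩ := mem_closure_iff_seq_limit.mp hcl
    choose A hA1 hA2 using fun j => hW (a j) (ha1 j).1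
    refine S.caseTwo f hη hκ'1 (fun B hB => hno B hB η hη) a ha2 A hA1 hA2 fun D => ?_
    by_contra hinf
    have hinf' : {j | A j = D}.Infinite := hinf
    have hfreq : ∃ᶠ j in atTop, a j ∈ V D := by
      rw [Nat.frequently_atTop_iff_infinite]
      refine hinf'.mono fun j hj => ?_
      have : A j = D := hj
      rw [← this]
      exact hA2 j
    have hc : c ∈ V D := by
      have := (hV D).closure_eq
      rw [← this]
      exact mem_closure_of_frequently_of_tendsto hfreq ha2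
    obtain ⟨j, hj⟩ := hinf'.nonempty
    have hj' : A j = D := hj
    have hD : D ∈ 𝒟 := ⟨hj' ▸ hA1 j, hc⟩
    refine (ha1 j).2 (Set.mem_biUnion hD ?_)
    have := hA2 j
    rw [hj'] at this
    exact this

end Setup

end Pool.Agent.Helper87_CpFree
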