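import Mathlib

/-!
The unit ball `BB = [-1,1]^ℕ` of `ℓ^∞` with the product (= weak star) topology and its pairing
with absolutely summable sequences.
-/

namespace Pool.Agent.Helper87_CpFree

open Filter Topology

/-- The unit ball of `ℓ^∞` with its weak star topology. -/
abbrev BB : Type := ℕ → Set.Icc (-1 : ℝ) 1

/-- The pairing of `BB` with sequences. -/
noncomputable def pr (a : BB) (y : ℕ → ℝ) : ℝ := ∑' i, (a i : ℝ) * y i

theorem abs_coe_le (x : Set.Icc (-1 : ℝ) 1) : |(x : ℝ)| ≤ 1 := abs_le.mpr ⟨x.2.1, x.2.2⟩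

theorem term_le (a : BB) (y : ℕ → ℝ) (i : ℕ) : ‖(a i : ℝ) * y i‖ ≤ |y i| := by
  rw [norm_mul, Real.norm_eq_abs, Real.norm_eq_abs]
  calc |(a i : ℝ)| * |y i| ≤ 1 * |y i| := by gcongr; exact abs_coe_le _
    _ = |y i| := one_mul _

theorem summable_pr (a : BB) {y : ℕ → ℝ} (hy : Summable fun i => |y i|) :
    Summable fun i => (a i : ℝ) * y i :=
  Summable.of_norm_bounded hy (term_le a y)

theorem continuous_pr {y : ℕ → ℝ} (hy : Summable fun i => |y i|) : Continuous fun a => pr a y := by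
  unfold pr
  refine continuous_tsum (fun i => ?_) hy (fun i a => term_le a y i)
  exact (continuous_subtype_val.comp (continuous_apply i)).mul continuous_const

theorem abs_pr_le (a : BB) {y : ℕ → ℝ} (hy : Summable fun i => |y i|) :
    |pr a y| ≤ ∑' i, |y i| := by
  unfold pr
  rw [← Real.norm_eq_abs]
  exact (norm_tsum_le_tsum_norm (summable_pr a hy).norm).trans
    ((summable_pr a hy).norm.tsum_le_tsum (term_le a y) hy)

theorem pr_sub (a : BB) {y z : ℕ → ℝ} (hy : Summable fun i => |y i|)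
    (hz : Summable fun i => |z i|) : pr a (fun i => y i - z i) = pr a y - pr a z := by
  unfold pr
  rw [← (summable_pr a hy).tsum_sub (summable_pr a hz)]
  congr 1
  ext i
  ring

/-- a linear relation between elements of `BB` passes to the pairing -/
theorem pr_diff {a b c : BB} (h : ∀ i, (b i : ℝ) - c i = 2 * a i) {y : ℕ → ℝ}
    (hy : Summable fun i => |y i|) : pr b y - pr c y = 2 * pr a y := by
  unfold pr
  rw [← (summable_pr b hy).tsum_sub (summable_pr c hy), ← tsum_mul_left]
  congr 1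
  ext i
  rw [← sub_mul, h i]
  ring

/-- The difference trick. -/
theorem diff_trick {W : Set BB} (hW : IsOpen W) (hne : W.Nonempty) :
    ∃ s : ℕ, ∀ a : BB, (∀ i < s, (a i : ℝ) = 0) →
      ∃ b ∈ W, ∃ c ∈ W, ∀ i, (b i : ℝ) - c i = 2 * a i := by
  obtain ⟨b0, hb0⟩ := hne
  obtain ⟨F, u, hu, hF⟩ := isOpen_pi_iff.mp hW b0 hb0
  refine ⟨F.sup id + 1, fun a ha => ?_⟩
  have hneg : ∀ x : Set.Icc (-1 : ℝ) 1, -(x : ℝ) ∈ Set.Icc (-1 : ℝ) 1 := fun x =>
    ⟨by have := x.2.2; linarith, by have := x.2.1; linarith⟩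
  refine ⟨fun i => if i ≤ F.sup id then b0 i else a i, hF ?_,
    fun i => if i ≤ F.sup id then b0 i else ⟨-(a i : ℝ), hneg (a i)⟩, hF ?_, ?_⟩
  · intro i hi
    have : i ≤ F.sup id := Finset.le_sup (f := id) hi
    simp only [this, if_true]
    exact (hu i hi).2
  · intro i hi
    have : i ≤ F.sup id := Finset.le_sup (f := id) hi
    simp only [this, if_true]
    exact (hu i hi).2
  · intro i
    by_cases h : i ≤ F.sup id
    · simp only [h, if_true]
      rw [ha i (by omega)]
      ring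
    · simp only [h, if_false]
      ring

/-- A Baire category lemma: an open set covered by countably many closed sets. -/
theorem baire_cover {X : Type*} [TopologicalSpace X] [BaireSpace X] {W : Set X} (hW : IsOpen W)
    (hne : W.Nonempty) (F : ℕ → Set X) (hF : ∀ n, IsClosed (F n)) (hcov : W ⊆ ⋃ n, F n) :
    ∃ n, (interior (F n) ∩ W).Nonempty := by
  let F' : Option ℕ → Set X := fun o => o.elim Wᶜ F
  have hc : ∀ o, IsClosed (F' o) := by
    rintro (_ | n)
    · exact hW.isClosed_compl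
    · exact hF n
  have hU : ⋃ o, F' o = Set.univ := by
    rw [Set.eq_univ_iff_forall]
    intro x
    by_cases hx : x ∈ W
    · obtain ⟨n, hn⟩ := Set.mem_iUnion.mp (hcov hx)
      exact Set.mem_iUnion.mpr ⟨some n, hn⟩
    · exact Set.mem_iUnion.mpr ⟨none, hx⟩
  obtain ⟨x, hxW, hx⟩ := (dense_iUnion_interior_of_closed hc hU).inter_open_nonempty W hW hne
  obtain ⟨o, ho⟩ := Set.mem_iUnion.mp hx
  rcases o with _ | n
  · exact absurd hxW (interior_subset ho)
  · exact ⟨n, x, ho, hxW⟩

/-- The sign vector of `y` from index `s` on. -/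
noncomputable def sgnTail (s : ℕ) (y : ℕ → ℝ) : BB := fun i =>
  if i < s then ⟨0, by norm_num⟩ else
    if 0 ≤ y i then ⟨1, by norm_num⟩ else ⟨-1, by norm_num⟩

theorem sgnTail_zero {s : ℕ} {y : ℕ → ℝ} {i : ℕ} (h : i < s) : (sgnTail s y i : ℝ) = 0 := by
  simp [sgnTail, h]

theorem sgnTail_mul {s : ℕ} {y : ℕ → ℝ} {i : ℕ} (h : s ≤ i) :
    (sgnTail s y i : ℝ) * y i = |y i| := by
  unfold sgnTail
  rw [if_neg (by omega)]
  split_ifs with h0
  · rw [abs_of_nonneg h0]; simp
  · rw [abs_of_neg (not_le.mp h0)]; simp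

/-- coordinate functionals -/
noncomputable def coordB (j : ℕ) : BB := fun i => if i = j then ⟨1, by norm_num⟩ else ⟨0, by norm_num⟩

theorem pr_coordB (j : ℕ) (y : ℕ → ℝ) : pr (coordB j) y = y j := by
  unfold pr coordB
  rw [tsum_eq_single j]
  · simp
  · intro i hi
    simp [hi]

/-- truncation of `a` below `s` -/
noncomputable def cutB (s : ℕ) (a : BB) : BB := fun i => if i < s then ⟨0, by norm_num⟩ else a i

theorem pr_cut (s : ℕ) (a : BB) {y : ℕ → ℝ} (hy : Summable fun i => |y i|) :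
    pr a y = ∑ i ∈ Finset.range s, (a i : ℝ) * y i + pr (cutB s a) y := by
  unfold pr
  rw [← (summable_pr a hy).sum_add_tsum_nat_add s, ← (summable_pr (cutB s a) hy).sum_add_tsum_nat_add s]
  have h1 : ∑ i ∈ Finset.range s, (cutB s a i : ℝ) * y i = 0 := by
    apply Finset.sum_eq_zero
    intro i hi
    rw [Finset.mem_range] at hi
    simp [cutB, hi]
  rw [h1, zero_add]
  congr 2
  ext i
  simp [cutB]

end Pool.Agent.Helper87_CpFree
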